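import Pool.Agent.H42.Shift

/-!
Existence of minimal graded free resolutions of finitely generated graded modules.
-/

namespace Pool.Agent.H42

open MvPolynomial Finset

universe u

section MinGen

variable {σ : Type} [Fintype σ] {K : Type u} [Field K]
variable {G : Type u} [AddCommGroup G] [Module (MvPolynomial σ K) G]

omit [Fintype σ] in
lemma map_pr (D : GrData σ K G) {r : ℕ} (deg : Fin r → ℤ)
    (φ : (Fin r → MvPolynomial σ K) →ₗ[MvPolynomial σ K] G)
    (hφ : ∀ b, φ (Pi.single b 1) ∈ D.gr (deg b)) (e : ℤ) (f : Fin r → MvPolynomial σ K) :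
    φ ((fdata σ K deg).pr e f) = D.pr e (φ f) := by
  classical
  obtain ⟨s, hs⟩ := (fdata σ K deg).sum_pr f
  have hcomp : ∀ e', φ ((fdata σ K deg).pr e' f) ∈ D.gr e' := fun e' =>
    map_mem_gr D deg φ hφ e' _ ((fdata σ K deg).pr_mem e' f)
  have h2 : D.pr e (φ f) = ∑ e' ∈ s, D.pr e (φ ((fdata σ K deg).pr e' f)) := by
    conv_lhs => rw [← hs]
    rw [map_sum, map_sum]
  have h3 : ∀ e' ∈ s, e' ≠ e → D.pr e (φ ((fdata σ K deg).pr e' f)) = 0 :=
    fun e' _ hne => D.pr_ne e e' _ (hcomp e') hne
  by_cases hes : e ∈ s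
  · rw [Finset.sum_eq_single_of_mem e hes h3, D.pr_self e _ (hcomp e)] at h2
    rw [h2]
  · rw [Finset.sum_eq_zero (fun e' he' => h3 e' he' (fun h => hes (h ▸ he')))] at h2
    have h4 : (fdata σ K deg).pr e f = 0 := by
      conv_lhs => rw [← hs]
      rw [map_sum]
      apply Finset.sum_eq_zero
      intro e' he'
      exact (fdata σ K deg).pr_ne e e' _ ((fdata σ K deg).pr_mem e' f)
        (fun h => hes (h ▸ he'))
    rw [h4, map_zero, h2]

/-- minimal homogeneous generators -/
lemma exists_min_gen (D : GrData σ K G) (S : Submodule (MvPolynomial σ K) G) (hfg : S.FG)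
    (hS : ∀ x ∈ S, ∀ e, D.pr e x ∈ S) :
    ∃ (r : ℕ) (deg : Fin r → ℤ) (φ : (Fin r → MvPolynomial σ K) →ₗ[MvPolynomial σ K] G),
      (∀ b, φ (Pi.single b 1) ∈ D.gr (deg b)) ∧ LinearMap.range φ = S ∧
      ∀ f ∈ LinearMap.ker φ, ∀ b, constantCoeff (f b) = 0 := by
  classical
  have hex : ∃ r : ℕ, ∃ (g : Fin r → G) (deg : Fin r → ℤ), (∀ b, g b ∈ D.gr (deg b)) ∧
      Submodule.span (MvPolynomial σ K) (Set.range g) = S := by
    obtain ⟨t, ht⟩ := hfg
    choose s hs using fun x => D.sum_pr x
    -- the set of homogeneous components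
    let A : Finset (ℤ × G) := t.biUnion (fun x => (s x).image (fun e => (e, D.pr e x)))
    let eq := A.equivFin
    refine ⟨A.card, fun k => ((eq.symm k : ℤ × G)).2, fun k => ((eq.symm k : ℤ × G)).1, ?_, ?_⟩
    · intro k
      have hk := (eq.symm k).2
      simp only [A, Finset.mem_biUnion, Finset.mem_image] at hk
      obtain ⟨x, _, e, _, he⟩ := hk
      beta_reduce
      rw [← he]
      exact D.pr_mem e x
    · apply le_antisymm
      · rw [Submodule.span_le]
        rintro _ ⟨k, rfl⟩
        have hk := (eq.symm k).2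
        simp only [A, Finset.mem_biUnion, Finset.mem_image] at hk
        obtain ⟨x, hx, e, _, he⟩ := hk
        beta_reduce
        rw [← he]
        exact hS x (ht ▸ Submodule.subset_span hx) e
      · rw [← ht, Submodule.span_le]
        intro x hx
        rw [SetLike.mem_coe, ← hs x]
        apply Submodule.sum_mem
        intro e he
        apply Submodule.subset_span
        have hmem : (e, D.pr e x) ∈ A := by
          simp only [A, Finset.mem_biUnion, Finset.mem_image]
          exact ⟨x, hx, e, he, rfl⟩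
        refine ⟨eq ⟨(e, D.pr e x), hmem⟩, ?_⟩
        simp
  obtain ⟨g, deg, hg, hspan⟩ := Nat.find_spec hex
  have hmin : ∀ m < Nat.find hex, ¬ ∃ (g : Fin m → G) (deg : Fin m → ℤ),
      (∀ b, g b ∈ D.gr (deg b)) ∧ Submodule.span (MvPolynomial σ K) (Set.range g) = S :=
    fun m hm => Nat.find_min hex hm
  generalize Nat.find hex = r at g deg hg hspan hmin
  let φ : (Fin r → MvPolynomial σ K) →ₗ[MvPolynomial σ K] G :=
    Fintype.linearCombination (MvPolynomial σ K) g
  have hφs : ∀ b, φ (Pi.single b 1) = g b := by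
    intro b
    simp only [φ, Fintype.linearCombination_apply_single, one_smul]
  have hφ : ∀ b, φ (Pi.single b 1) ∈ D.gr (deg b) := by
    intro b; rw [hφs]; exact hg b
  refine ⟨r, deg, φ, hφ, ?_, ?_⟩
  · rw [← hspan]
    exact Fintype.range_linearCombination (MvPolynomial σ K) g
  · intro f hf b
    by_contra hne
    -- take the homogeneous component of the relation
    set a : K := constantCoeff (f b) with ha
    set f' := (fdata σ K deg).pr (deg b) f with hf'
    have h1 : φ f' = 0 := by
      rw [hf', map_pr D deg φ hφ, LinearMap.mem_ker.1 hf, map_zero]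
    have h2 : f' b = C a := by
      have : f' b = hcz (deg b - deg b) (f b) := rfl
      rw [this, sub_self]
      ext β
      rw [coeff_hcz, coeff_C]
      by_cases hβ : β = 0
      · subst hβ; simp [ha, constantCoeff_eq]
      · rw [if_neg, if_neg (Ne.symm hβ)]
        intro h
        apply hβ
        have h3 : β.degree = 0 := by exact_mod_cast h
        rwa [Finsupp.degree_eq_zero_iff] at h3
    have h3 : ∑ b', f' b' • g b' = 0 := by
      have : φ f' = ∑ b', f' b' • g b' := Fintype.linearCombination_apply _ _ _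
      rw [← this, h1]
    rw [← Finset.add_sum_erase _ _ (Finset.mem_univ b), h2] at h3
    have h4 : g b = ∑ b' ∈ univ.erase b, (-(C a⁻¹) * f' b') • g b' := by
      have h5 : (C a : MvPolynomial σ K) • g b = - ∑ b' ∈ univ.erase b, f' b' • g b' :=
        eq_neg_of_add_eq_zero_left h3
      have h6 : g b = (C a⁻¹ : MvPolynomial σ K) • (C a : MvPolynomial σ K) • g b := by
        rw [smul_smul, ← C_mul, inv_mul_cancel₀ hne, C_1, one_smul]
      rw [h6, h5, smul_neg, Finset.smul_sum, ← Finset.sum_neg_distrib]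
      apply Finset.sum_congr rfl
      intro b' _
      rw [smul_smul, neg_mul, neg_smul]
    obtain ⟨r', rfl⟩ : ∃ r', r = r' + 1 := ⟨r - 1, by have := b.2; omega⟩
    apply hmin r' (by omega)
    refine ⟨fun k => g (b.succAbove k), fun k => deg (b.succAbove k), fun k => hg _, ?_⟩
    rw [← hspan]
    apply le_antisymm
    · apply Submodule.span_mono
      rintro _ ⟨k, rfl⟩
      exact ⟨_, rfl⟩
    · rw [Submodule.span_le]
      have hne : ∀ b' ∈ univ.erase b, g b' ∈ Submodule.span (MvPolynomial σ K)
          (Set.range fun k => g (b.succAbove k)) := by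
        intro b' hb'
        rw [Finset.mem_erase] at hb'
        obtain ⟨k, hk⟩ := Fin.exists_succAbove_eq hb'.1
        apply Submodule.subset_span
        exact ⟨k, by beta_reduce; rw [hk]⟩
      rintro _ ⟨b', rfl⟩
      by_cases hb : b' = b
      · rw [hb, h4]
        apply Submodule.sum_mem
        intro b'' hb''
        exact Submodule.smul_mem _ _ (hne b'' hb'')
      · exact hne b' (Finset.mem_erase.2 ⟨hb, Finset.mem_univ _⟩)

omit [Fintype σ] in
lemma ker_homog (D : GrData σ K G) {r : ℕ} (deg : Fin r → ℤ)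
    (φ : (Fin r → MvPolynomial σ K) →ₗ[MvPolynomial σ K] G)
    (hφ : ∀ b, φ (Pi.single b 1) ∈ D.gr (deg b)) :
    ∀ x ∈ LinearMap.ker φ, ∀ e, (fdata σ K deg).pr e x ∈ LinearMap.ker φ := by
  intro x hx e
  rw [LinearMap.mem_ker, map_pr D deg φ hφ, LinearMap.mem_ker.1 hx, map_zero]

end MinGen

section Exist

variable (σ : Type) [Fintype σ] (K : Type u) [Field K]

/-- a homogeneous submodule of a free graded module -/
structure St where
  r : ℕ
  deg : Fin r → ℤ
  S : Submodule (MvPolynomial σ K) (Fin r → MvPolynomial σ K)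
  hS : ∀ x ∈ S, ∀ e, (fdata σ K deg).pr e x ∈ S

/-- a cover of a homogeneous submodule -/
structure Cov {G : Type u} [AddCommGroup G] [Module (MvPolynomial σ K) G] (D : GrData σ K G)
    (S : Submodule (MvPolynomial σ K) G) where
  r : ℕ
  deg : Fin r → ℤ
  φ : (Fin r → MvPolynomial σ K) →ₗ[MvPolynomial σ K] G
  homog : ∀ b, φ (Pi.single b 1) ∈ D.gr (deg b)
  range : LinearMap.range φ = S
  min : ∀ f ∈ LinearMap.ker φ, ∀ b, constantCoeff (f b) = 0

variable {σ K}

lemma exists_cov {G : Type u} [AddCommGroup G] [Module (MvPolynomial σ K) G] (D : GrData σ K G)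
    (S : Submodule (MvPolynomial σ K) G) (hfg : S.FG) (hS : ∀ x ∈ S, ∀ e, D.pr e x ∈ S) :
    Nonempty (Cov σ K D S) := by
  obtain ⟨r, deg, φ, h1, h2, h3⟩ := exists_min_gen D S hfg hS
  exact ⟨⟨r, deg, φ, h1, h2, h3⟩⟩

/-- the state after a cover -/
noncomputable def Cov.st {G : Type u} [AddCommGroup G] [Module (MvPolynomial σ K) G]
    {D : GrData σ K G} {S : Submodule (MvPolynomial σ K) G} (c : Cov σ K D S) : St σ K :=
  ⟨c.r, c.deg, LinearMap.ker c.φ, ker_homog D c.deg c.φ c.homog⟩

/-- a chosen cover of the next syzygy module -/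
noncomputable def St.cov (s : St σ K) : Cov σ K (fdata σ K s.deg) s.S :=
  Classical.choice (exists_cov _ _ (IsNoetherian.noetherian s.S) s.hS)

/-- the sequence of syzygy modules -/
noncomputable def stSeq (s0 : St σ K) : ℕ → St σ K
  | 0 => s0
  | k + 1 => (stSeq s0 k).cov.st

theorem exists_minRes (N : GrMod σ K) (hfg : (⊤ : Submodule (MvPolynomial σ K) N.carrier).FG) :
    Nonempty (MinRes N) := by
  obtain ⟨c⟩ := exists_cov N.data ⊤ hfg (fun _ _ _ => Submodule.mem_top)
  have hsurj : Function.Surjective c.φ := LinearMap.range_eq_top.1 c.range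
  have haug : ∃ aug : (Fin (stSeq c.st 0).r → MvPolynomial σ K) →ₗ[MvPolynomial σ K] N.carrier,
      (∀ b, aug (Pi.single b 1) ∈ N.gr ((stSeq c.st 0).deg b)) ∧ Function.Surjective aug ∧
      LinearMap.ker aug = (stSeq c.st 0).S ∧
      ∀ f ∈ LinearMap.ker aug, ∀ b, constantCoeff (f b) = 0 :=
    ⟨c.φ, c.homog, hsurj, rfl, c.min⟩
  obtain ⟨aug, h1, h2, h3, h4⟩ := haug
  exact ⟨{
    rank := fun i => (stSeq c.st i).r
    deg := fun i => (stSeq c.st i).deg
    d := fun i => (stSeq c.st i).cov.φ
    aug := aug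
    d_graded := fun i b b' => (stSeq c.st i).cov.homog b b'
    aug_graded := h1
    exact_zero := by
      refine ⟨h2, ?_⟩
      rw [h3]
      exact (Cov.range (St.cov (stSeq c.st 0))).symm
    exact_succ := by
      intro i
      have h := Cov.range (St.cov (stSeq c.st (i + 1)))
      exact h.symm
    minimal := by
      intro i b b'
      have h5 : (stSeq c.st i).cov.φ (Pi.single b 1) ∈ (stSeq c.st i).S := by
        have h := Cov.range (St.cov (stSeq c.st i))
        exact (le_of_eq h) (LinearMap.mem_range_self _ _)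
      cases i with
      | zero => exact h4 _ (by rw [h3]; exact h5) b'
      | succ i => exact (stSeq c.st i).cov.min _ h5 b' }⟩

end Exist

end Pool.Agent.H42
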