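import Pool.Agent.H42.FibreReg

/-!
The OI-module and the FI-module built from a compatible family of matrices.
-/

namespace Pool.Agent.H42

open MvPolynomial Finset

universe u

section Families

variable {K : Type u} [Field K] (c : ℕ) (A : (n : ℕ) → Fin n → Fin n → K)

/-- the OI-module attached to a family of matrices -/
noncomputable def fibOI (hA : ∀ {m n : ℕ} (ε : Fin m ↪o Fin n), Compat A ε) : OIModule K c where
  comp := fibMod c A
  map := fun ε => fibMap c A ε ε.injective (hA ε)
  map_ident := fun _ x => fibMap_id c A _ _ _ (fun _ => rfl) x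
  map_compose := fun δ ε x => fibMap_comp c A ε δ _ _ _ _ (hA ε) (hA δ) _ (fun _ => rfl) x
  semilinear := fun ε p x => fibMap_smul c A ε ε.injective (hA ε) p x
  degreePreserving := fun ε e x hx => fibMap_mem c A ε ε.injective (hA ε) e x hx

/-- the FI-module attached to a family of matrices -/
noncomputable def fibFI (hA : ∀ {m n : ℕ} (ε : Fin m ↪ Fin n), Compat A ε) : FIModule K c where
  comp := fibMod c A
  map := fun ε => fibMap c A ε ε.injective (hA ε)
  map_ident := fun _ x => fibMap_id c A _ _ _ (fun _ => rfl) x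
  map_compose := fun δ ε x => fibMap_comp c A ε δ _ _ _ _ (hA ε) (hA δ) _ (fun _ => rfl) x
  semilinear := fun ε p x => fibMap_smul c A ε ε.injective (hA ε) p x
  degreePreserving := fun ε e x hx => fibMap_mem c A ε ε.injective (hA ε) e x hx

lemma fibOI_fg (hA : ∀ {m n : ℕ} (ε : Fin m ↪o Fin n), Compat A ε) :
    (fibOI c A hA).FinitelyGenerated := by
  refine ⟨c + 1, fun _ => 1, gdeg c, gens c A, gens_mem c A, ?_⟩
  intro n
  have hmono : ∀ j : Fin n, StrictMono (fun _ : Fin 1 => j) := by
    intro j a b hab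
    exact absurd (Subsingleton.elim a b) (ne_of_lt hab)
  have key := span_gens c A (n := n) (Submodule.span (MvPolynomial (Fin c × Fin n) K)
    {x : fib c A n | ∃ (k : Fin (c + 1)) (ε : Fin 1 ↪o Fin n),
      x = fibMap c A ε ε.injective (hA ε) (gens c A k)}) (by
      intro j hf hA' k
      apply Submodule.subset_span
      exact ⟨k, OrderEmbedding.ofStrictMono (fun _ : Fin 1 => j) (hmono j), rfl⟩) (by
      intro j
      exact hA (OrderEmbedding.ofStrictMono (fun _ : Fin 1 => j) (hmono j)))
  exact key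

lemma fibFI_fg (hA : ∀ {m n : ℕ} (ε : Fin m ↪ Fin n), Compat A ε) :
    (fibFI c A hA).FinitelyGenerated := by
  refine ⟨c + 1, fun _ => 1, gdeg c, gens c A, gens_mem c A, ?_⟩
  intro n
  have hinj : ∀ j : Fin n, Function.Injective (fun _ : Fin 1 => j) := fun j =>
    Function.injective_of_subsingleton _
  have key := span_gens c A (n := n) (Submodule.span (MvPolynomial (Fin c × Fin n) K)
    {x : fib c A n | ∃ (k : Fin (c + 1)) (ε : Fin 1 ↪ Fin n),
      x = fibMap c A ε ε.injective (hA ε) (gens c A k)}) (by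
      intro j hf hA' k
      apply Submodule.subset_span
      exact ⟨k, ⟨fun _ : Fin 1 => j, hinj j⟩, rfl⟩) (by
      intro j
      exact hA ⟨fun _ : Fin 1 => j, hinj j⟩)
  exact key

lemma fib_fg {n : ℕ} (hA : ∀ j : Fin n, Compat A (fun _ : Fin 1 => j)) :
    (⊤ : Submodule (MvPolynomial (Fin c × Fin n) K) (fibMod c A n).carrier).FG := by
  have hinj : ∀ j : Fin n, Function.Injective (fun _ : Fin 1 => j) := fun j =>
    Function.injective_of_subsingleton _
  have h := span_gens c A (n := n) (Submodule.span (MvPolynomial (Fin c × Fin n) K)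
    (Set.range (fun p : Fin n × Fin (c + 1) =>
      fibMap c A (fun _ => p.1) (hinj p.1) (hA p.1) (gens c A p.2)))) (by
      intro j hf hA' k
      apply Submodule.subset_span
      exact ⟨(j, k), rfl⟩) hA
  exact h ▸ Submodule.fg_span (Set.finite_range _)

lemma HasRegularity.unique {σ : Type} {N : GrMod σ K} {r s : ℤ} (h1 : HasRegularity N r)
    (h2 : HasRegularity N s) : r = s := by
  obtain ⟨F⟩ := h1.1
  exact (h1.2 F).unique (h2.2 F)

end Families

section Skew

variable (K : Type u) [Field K]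

/-- the skew-symmetric matrix with entries `1` above and `-1` below the diagonal -/
def skewA (n : ℕ) (k j : Fin n) : K := if k < j then 1 else if j < k then -1 else 0

lemma skewA_compat {m n : ℕ} (ε : Fin m ↪o Fin n) : Compat (skewA K) ε := by
  intro i j
  unfold skewA
  simp only [OrderEmbedding.lt_iff_lt]

lemma skew_formula (n : ℕ) (k j : Fin n) : skewA K n k j =
    (if (k : ℕ) < j then 1 else 0) + (if (k : ℕ) < j + 1 then 1 else 0) - 1 := by
  unfold skewA
  rcases lt_trichotomy k j with h | h | h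
  · have h1 : (k : ℕ) < j := h
    have h2 : (k : ℕ) < j + 1 := by omega
    simp [h, h1, h2]
  · subst h; simp
  · have h1 : ¬ (k : ℕ) < j := by have : (j : ℕ) < k := h; omega
    have h2 : ¬ (k : ℕ) < j + 1 := by have : (j : ℕ) < k := h; omega
    have h3 : ¬ k < j := not_lt_of_gt h
    simp [h, h1, h2, h3]

lemma sum_ite_lt (n m : ℕ) (hm : m ≤ n) :
    ∑ k : Fin n, (-1 : K) ^ (k : ℕ) * (if (k : ℕ) < m then 1 else 0) =
      if Even m then 0 else 1 := by
  rw [Fin.sum_univ_eq_sum_range (fun k => (-1 : K) ^ k * (if k < m then 1 else 0)) n]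
  simp only [mul_ite, mul_one, mul_zero]
  rw [← Finset.sum_filter]
  have : (Finset.range n).filter (fun k => k < m) = Finset.range m := by
    ext k
    simp only [Finset.mem_filter, Finset.mem_range]
    omega
  rw [this, neg_one_geom_sum]

lemma skew_alt_sum {n : ℕ} (hn : ¬ Even n) (j : Fin n) :
    ∑ k : Fin n, (-1 : K) ^ (k : ℕ) * skewA K n k j = 0 := by
  have h1 : ∀ k : Fin n, (-1 : K) ^ (k : ℕ) * skewA K n k j =
      (-1 : K) ^ (k : ℕ) * (if (k : ℕ) < (j : ℕ) then 1 else 0) +
      (-1 : K) ^ (k : ℕ) * (if (k : ℕ) < (j : ℕ) + 1 then 1 else 0) -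
      (-1 : K) ^ (k : ℕ) * (if (k : ℕ) < n then 1 else 0) := by
    intro k
    rw [skew_formula, if_pos k.2]
    ring
  rw [Finset.sum_congr rfl (fun k _ => h1 k), Finset.sum_sub_distrib, Finset.sum_add_distrib,
    sum_ite_lt K n j (le_of_lt j.2), sum_ite_lt K n (j + 1) j.2, sum_ite_lt K n n le_rfl,
    if_neg hn]
  by_cases hj : Even (j : ℕ)
  · rw [if_pos hj, if_neg (by rw [Nat.even_add_one]; simpa using hj)]; ring
  · rw [if_neg hj, if_pos (by rw [Nat.even_add_one]; exact hj)]; ring

lemma skew_not_surj {n : ℕ} (hn : ¬ Even n) :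
    ¬ ∀ u : Fin n → K, ∃ v : Fin n → K, ∀ k, ∑ j, skewA K n k j * v j = u k := by
  intro h
  have hpos : 0 < n := by
    rcases Nat.eq_zero_or_pos n with h0 | h0
    · subst h0; exact absurd (by simp) hn
    · exact h0
  obtain ⟨v, hv⟩ := h (fun k => if k = ⟨0, hpos⟩ then 1 else 0)
  have h1 : ∑ k : Fin n, (-1 : K) ^ (k : ℕ) * (∑ j, skewA K n k j * v j) = 0 := by
    simp only [Finset.mul_sum]
    rw [Finset.sum_comm]
    apply Finset.sum_eq_zero
    intro j _
    have : ∀ k : Fin n, (-1 : K) ^ (k : ℕ) * (skewA K n k j * v j) =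
        ((-1 : K) ^ (k : ℕ) * skewA K n k j) * v j := fun k => by ring
    rw [Finset.sum_congr rfl (fun k _ => this k), ← Finset.sum_mul, skew_alt_sum K hn j, zero_mul]
  simp only [hv] at h1
  rw [Finset.sum_eq_single (⟨0, hpos⟩ : Fin n)] at h1
  · simp at h1
  · intro k _ hk
    rw [if_neg hk, mul_zero]
  · intro h2; exact absurd (Finset.mem_univ _) h2

lemma skew_surj {n : ℕ} (hn : Even n) :
    ∀ u : Fin n → K, ∃ v : Fin n → K, ∀ k, ∑ j, skewA K n k j * v j = u k := by
  classical
  let M : Matrix (Fin n) (Fin n) K := Matrix.of (fun k j => skewA K n k j)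
  have happ : ∀ v k, M.mulVecLin v k = ∑ j, skewA K n k j * v j := by
    intro v k
    simp [M, Matrix.mulVec, dotProduct]
  have hinj : Function.Injective M.mulVecLin := by
    rw [← LinearMap.ker_eq_bot, LinearMap.ker_eq_bot']
    intro v hv
    have hv' : ∀ k, ∑ j, skewA K n k j * v j = 0 := by
      intro k
      rw [← happ, hv]; rfl
    -- consecutive entries
    have hstep : ∀ (i : ℕ) (h1 : i < n) (h2 : i + 1 < n), v ⟨i + 1, h2⟩ = - v ⟨i, h1⟩ := by
      intro i h1 h2
      have h3 : ∑ j, (skewA K n ⟨i, h1⟩ j - skewA K n ⟨i + 1, h2⟩ j) * v j = 0 := by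
        have : ∀ j, (skewA K n ⟨i, h1⟩ j - skewA K n ⟨i + 1, h2⟩ j) * v j =
            skewA K n ⟨i, h1⟩ j * v j - skewA K n ⟨i + 1, h2⟩ j * v j := fun j => by ring
        rw [Finset.sum_congr rfl (fun j _ => this j), Finset.sum_sub_distrib, hv', hv', sub_zero]
      have h4 : ∀ j : Fin n, (skewA K n ⟨i, h1⟩ j - skewA K n ⟨i + 1, h2⟩ j) =
          (if j = ⟨i, h1⟩ then 1 else 0) + (if j = ⟨i + 1, h2⟩ then 1 else 0) := by
        intro j
        unfold skewA
        simp only [Fin.lt_def, Fin.ext_iff]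
        split_ifs <;> first | omega | ring
      have h5 : ∀ j : Fin n, (skewA K n ⟨i, h1⟩ j - skewA K n ⟨i + 1, h2⟩ j) * v j =
          (if j = ⟨i, h1⟩ then v j else 0) + (if j = ⟨i + 1, h2⟩ then v j else 0) := by
        intro j
        rw [h4]
        split_ifs <;> ring
      rw [Finset.sum_congr rfl (fun j _ => h5 j), Finset.sum_add_distrib] at h3
      simp only [Finset.sum_ite_eq', Finset.mem_univ, if_true] at h3
      exact eq_neg_of_add_eq_zero_right h3
    by_cases hpos : 0 < n
    · have hall : ∀ (i : ℕ) (h : i < n), v ⟨i, h⟩ = (-1) ^ i * v ⟨0, hpos⟩ := by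
        intro i
        induction i with
        | zero => intro h; simp
        | succ i ih =>
          intro h
          rw [hstep i (by omega) h, ih (by omega), pow_succ]
          ring
      have h0 := hv' ⟨0, hpos⟩
      have h6 : ∀ j : Fin n, skewA K n ⟨0, hpos⟩ j * v j =
          ((-1 : K) ^ (j : ℕ) * (if (j : ℕ) < n then 1 else 0) -
            (-1 : K) ^ (j : ℕ) * (if (j : ℕ) < 1 then 1 else 0)) * v ⟨0, hpos⟩ := by
        intro j
        rw [hall j j.2, if_pos j.2]
        unfold skewA
        simp only [Fin.lt_def]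
        by_cases hj : (j : ℕ) = 0
        · simp [hj]
        · rw [if_pos (by omega), if_neg (by omega)]; ring
      rw [Finset.sum_congr rfl (fun j _ => h6 j), ← Finset.sum_mul, Finset.sum_sub_distrib,
        sum_ite_lt K n n le_rfl, sum_ite_lt K n 1 hpos, if_pos hn, if_neg (by simp)] at h0
      have h7 : v ⟨0, hpos⟩ = 0 := by
        have : (0 - 1 : K) * v ⟨0, hpos⟩ = - v ⟨0, hpos⟩ := by ring
        rw [this] at h0
        exact neg_eq_zero.1 h0
      funext j
      rw [hall j j.2, h7, mul_zero]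
      rfl
    · funext j
      exact absurd j.2 (by omega)
  have hsurj := LinearMap.injective_iff_surjective.1 hinj
  intro u
  obtain ⟨v, hv⟩ := hsurj u
  exact ⟨v, fun k => by rw [← happ, hv]⟩

end Skew

section OffDiag

variable (K : Type u) [Field K]

/-- the matrix with zeros on the diagonal and ones elsewhere -/
def offA (n : ℕ) (k j : Fin n) : K := if k = j then 0 else 1

lemma offA_compat {m n : ℕ} (ε : Fin m ↪ Fin n) : Compat (offA K) ε := by
  intro i j
  unfold offA
  simp only [EmbeddingLike.apply_eq_iff_eq]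

lemma off_sum {n : ℕ} (v : Fin n → K) (k : Fin n) :
    ∑ j, offA K n k j * v j = (∑ j, v j) - v k := by
  have h1 : ∀ j : Fin n, offA K n k j * v j = v j - (if k = j then v j else 0) := by
    intro j
    unfold offA
    split_ifs <;> ring
  rw [Finset.sum_congr rfl (fun j _ => h1 j), Finset.sum_sub_distrib]
  simp

lemma off_surj {n : ℕ} (hn : (n : K) - 1 ≠ 0) :
    ∀ u : Fin n → K, ∃ v : Fin n → K, ∀ k, ∑ j, offA K n k j * v j = u k := by
  intro u
  refine ⟨fun k => (∑ j, u j) / ((n : K) - 1) - u k, fun k => ?_⟩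
  rw [off_sum, Finset.sum_sub_distrib, Finset.sum_const, Finset.card_univ, Fintype.card_fin,
    nsmul_eq_mul]
  field_simp
  ring

lemma off_not_surj {n : ℕ} (hpos : 0 < n) (hn : (n : K) - 1 = 0) :
    ¬ ∀ u : Fin n → K, ∃ v : Fin n → K, ∀ k, ∑ j, offA K n k j * v j = u k := by
  intro h
  obtain ⟨v, hv⟩ := h (fun k => if k = ⟨0, hpos⟩ then 1 else 0)
  have h1 : ∑ k : Fin n, (∑ j, offA K n k j * v j) = 0 := by
    simp only [off_sum]
    rw [Finset.sum_sub_distrib, Finset.sum_const, Finset.card_univ, Fintype.card_fin,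
      nsmul_eq_mul]
    have : (n : K) * ∑ j, v j - ∑ j, v j = ((n : K) - 1) * ∑ j, v j := by ring
    rw [this, hn, zero_mul]
  simp only [hv] at h1
  simp at h1

end OffDiag

end Pool.Agent.H42
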