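import Pool.Agent.H42.FibreModule

/-!
Functoriality of the modules `M_n` and finite generation.
-/

namespace Pool.Agent.H42

open MvPolynomial Finset

universe u

section Ext

variable {R : Type u} [AddCommGroup R]

/-- extension by zero -/
def ext0 {m n : ℕ} (f : Fin m → Fin n) : (Fin m → R) →+ (Fin n → R) where
  toFun g k := ∑ i, if f i = k then g i else 0
  map_zero' := by
    funext k
    simp
  map_add' g h := by
    funext k
    simp only [Pi.add_apply]
    rw [← Finset.sum_add_distrib]
    apply Finset.sum_congr rfl
    intro i _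
    split_ifs <;> simp

lemma ext0_apply {m n : ℕ} (f : Fin m → Fin n) (hf : Function.Injective f) (g : Fin m → R)
    (i : Fin m) : ext0 f g (f i) = g i := by
  change (∑ i', if f i' = f i then g i' else 0) = g i
  rw [Finset.sum_eq_single i]
  · simp
  · intro i' _ hne
    rw [if_neg]
    intro h; exact hne (hf h)
  · intro h; exact absurd (Finset.mem_univ _) h

lemma ext0_of_not {m n : ℕ} (f : Fin m → Fin n) (g : Fin m → R) (k : Fin n)
    (hk : ∀ i, f i ≠ k) : ext0 f g k = 0 := by
  change (∑ i', if f i' = k then g i' else 0) = 0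
  apply Finset.sum_eq_zero
  intro i _
  rw [if_neg (hk i)]

end Ext

section Maps

variable {K : Type u} [Field K] (c : ℕ) (A : (n : ℕ) → Fin n → Fin n → K)

/-- compatibility of the matrices with the map `f` -/
def Compat {m n : ℕ} (f : Fin m → Fin n) : Prop := ∀ i j, A n (f i) (f j) = A m i j

lemma sum_ext0 {m n : ℕ} (f : Fin m → Fin n) (k : Fin n) (v : Fin m → K) :
    ∑ j', A n k j' * ext0 f v j' = ∑ j, A n k (f j) * v j := by
  have h1 : ∀ j', A n k j' * ext0 f v j' = ∑ j, if f j = j' then A n k j' * v j else 0 := by
    intro j'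
    change A n k j' * (∑ i, if f i = j' then v i else 0) = _
    rw [Finset.mul_sum]
    apply Finset.sum_congr rfl
    intro j _
    split_ifs <;> simp
  rw [Finset.sum_congr rfl (fun j' _ => h1 j'), Finset.sum_comm]
  apply Finset.sum_congr rfl
  intro j _
  rw [Finset.sum_ite_eq Finset.univ (f j) (fun j' => A n k j' * v j)]
  simp

lemma sum_ext0_compat {m n : ℕ} (f : Fin m → Fin n) (hA : Compat A f) (i : Fin m)
    (v : Fin m → K) : ∑ j', A n (f i) j' * ext0 f v j' = ∑ j, A m i j * v j := by
  rw [sum_ext0]
  apply Finset.sum_congr rfl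
  intro j _
  rw [hA i j]

/-- the second component of the image -/
noncomputable def snd' {m n : ℕ} (f : Fin m → Fin n) (x : Amb K c m) :
    Fin n → MvPolynomial (Fin c) K := fun k =>
  C (∑ j', A n k j' * ext0 f x.1 j') + ext0 f (fun i => x.2 i - C (∑ j, A m i j * x.1 j)) k

lemma snd'_apply {m n : ℕ} (f : Fin m → Fin n) (hf : Function.Injective f) (hA : Compat A f)
    (x : Amb K c m) (i : Fin m) : snd' c A f x (f i) = x.2 i := by
  unfold snd'
  rw [ext0_apply f hf, sum_ext0_compat A f hA]
  ring

lemma snd'_of_not {m n : ℕ} (f : Fin m → Fin n) (x : Amb K c m) (k : Fin n)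
    (hk : ∀ i, f i ≠ k) : snd' c A f x k = C (∑ j, A n k (f j) * x.1 j) := by
  unfold snd'
  rw [ext0_of_not f _ k hk, add_zero, sum_ext0]

/-- the map `M(f) : M_m → M_n` -/
noncomputable def fibMap {m n : ℕ} (f : Fin m → Fin n) (hf : Function.Injective f)
    (hA : Compat A f) : fib c A m →+ fib c A n where
  toFun x := ⟨(ext0 f x.1.1, snd' c A f x.1), by
    intro k
    change constantCoeff (snd' c A f x.1 k) = ∑ j, A n k j * ext0 f x.1.1 j
    by_cases hk : ∃ i, f i = k
    · obtain ⟨i, rfl⟩ := hk
      rw [snd'_apply c A f hf hA, sum_ext0_compat A f hA]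
      exact x.2 i
    · push Not at hk
      rw [snd'_of_not c A f _ k hk, constantCoeff_C, sum_ext0]⟩
  map_zero' := by
    apply Subtype.ext
    apply amb_ext
    · intro j
      change ext0 f (0 : Fin m → K) j = 0
      rw [map_zero]; rfl
    · intro k
      change snd' c A f 0 k = 0
      by_cases hk : ∃ i, f i = k
      · obtain ⟨i, rfl⟩ := hk
        rw [snd'_apply c A f hf hA]; rfl
      · push Not at hk
        rw [snd'_of_not c A f _ k hk]
        simp [zero_fst]
  map_add' x y := by
    apply Subtype.ext
    apply amb_ext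
    · intro j
      change ext0 f (x.1.1 + y.1.1) j = ext0 f x.1.1 j + ext0 f y.1.1 j
      rw [map_add]; rfl
    · intro k
      change snd' c A f (x.1 + y.1) k = snd' c A f x.1 k + snd' c A f y.1 k
      by_cases hk : ∃ i, f i = k
      · obtain ⟨i, rfl⟩ := hk
        rw [snd'_apply c A f hf hA, snd'_apply c A f hf hA, snd'_apply c A f hf hA]; rfl
      · push Not at hk
        rw [snd'_of_not c A f _ k hk, snd'_of_not c A f _ k hk, snd'_of_not c A f _ k hk,
          ← C_add, ← Finset.sum_add_distrib]
        congr 1
        apply Finset.sum_congr rfl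
        intro j _
        rw [add_fst, mul_add]

lemma fibMap_fst {m n : ℕ} (f : Fin m → Fin n) (hf : Function.Injective f)
    (hA : Compat A f) (x : fib c A m) : (fibMap c A f hf hA x).1.1 = ext0 f x.1.1 := rfl

lemma fibMap_snd {m n : ℕ} (f : Fin m → Fin n) (hf : Function.Injective f)
    (hA : Compat A f) (x : fib c A m) : (fibMap c A f hf hA x).1.2 = snd' c A f x.1 := rfl

lemma fibMap_id {n : ℕ} (f : Fin n → Fin n) (hf : Function.Injective f)
    (hA : Compat A f) (hid : ∀ i, f i = i) (x : fib c A n) : fibMap c A f hf hA x = x := by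
  apply Subtype.ext
  apply amb_ext
  · intro j
    rw [fibMap_fst]
    conv_lhs => rw [← hid j]
    rw [ext0_apply f hf]
  · intro k
    rw [fibMap_snd]
    conv_lhs => rw [← hid k]
    rw [snd'_apply c A f hf hA]

lemma fibMap_comp {l m n : ℕ} (f : Fin l → Fin m) (g : Fin m → Fin n) (h : Fin l → Fin n)
    (hf : Function.Injective f) (hg : Function.Injective g) (hh : Function.Injective h)
    (hAf : Compat A f) (hAg : Compat A g) (hAh : Compat A h) (hgf : ∀ i, h i = g (f i))
    (x : fib c A l) : fibMap c A h hh hAh x = fibMap c A g hg hAg (fibMap c A f hf hAf x) := by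
  apply Subtype.ext
  apply amb_ext
  · intro j
    rw [fibMap_fst, fibMap_fst, fibMap_fst]
    by_cases hj : ∃ i, g i = j
    · obtain ⟨i, rfl⟩ := hj
      rw [ext0_apply g hg]
      by_cases hi : ∃ i', f i' = i
      · obtain ⟨i', rfl⟩ := hi
        rw [ext0_apply f hf, ← hgf, ext0_apply h hh]
      · push Not at hi
        rw [ext0_of_not f _ i hi, ext0_of_not h]
        intro i' hi'
        rw [hgf] at hi'
        exact hi i' (hg hi')
    · push Not at hj
      rw [ext0_of_not g _ j hj, ext0_of_not h]
      intro i' hi'
      rw [hgf] at hi'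
      exact hj _ hi'
  · intro k
    rw [fibMap_snd, fibMap_snd]
    by_cases hk : ∃ i, g i = k
    · obtain ⟨i, rfl⟩ := hk
      rw [snd'_apply c A g hg hAg, fibMap_snd]
      by_cases hi : ∃ i', f i' = i
      · obtain ⟨i', rfl⟩ := hi
        rw [snd'_apply c A f hf hAf, ← hgf, snd'_apply c A h hh hAh]
      · push Not at hi
        rw [snd'_of_not c A f _ i hi, snd'_of_not c A h]
        · congr 1
          apply Finset.sum_congr rfl
          intro j _
          rw [hgf, hAg]
        · intro i' hi'
          rw [hgf] at hi'
          exact hi i' (hg hi')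
    · push Not at hk
      rw [snd'_of_not c A g _ k hk, snd'_of_not c A h]
      · rw [fibMap_fst, ← sum_ext0 A g, sum_ext0]
        congr 1
        have := sum_ext0 (fun n => A n) f
        have h3 : ∑ j, A n k (g j) * ext0 f x.1.1 j = ∑ j, A n k (g (f j)) * x.1.1 j := by
          have h4 : ∀ j', A n k (g j') * ext0 f x.1.1 j' =
              ∑ j, if f j = j' then A n k (g j') * x.1.1 j else 0 := by
            intro j'
            change A n k (g j') * (∑ i, if f i = j' then x.1.1 i else 0) = _
            rw [Finset.mul_sum]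
            apply Finset.sum_congr rfl
            intro j _
            split_ifs <;> simp
          rw [Finset.sum_congr rfl (fun j' _ => h4 j'), Finset.sum_comm]
          apply Finset.sum_congr rfl
          intro j _
          rw [Finset.sum_ite_eq Finset.univ (f j) (fun j' => A n k (g j') * x.1.1 j)]
          simp
        rw [h3]
        apply Finset.sum_congr rfl
        intro j _
        rw [hgf]
      · intro i' hi'
        rw [hgf] at hi'
        exact hk _ hi'

lemma constantCoeff_polyMap {m n : ℕ} (f : Fin m → Fin n)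
    (p : MvPolynomial (Fin c × Fin m) K) :
    constantCoeff (polyMap f p) = constantCoeff p := by
  unfold polyMap
  exact constantCoeff_rename _ _

lemma col_polyMap {m n : ℕ} (f : Fin m → Fin n) (hf : Function.Injective f)
    (p : MvPolynomial (Fin c × Fin m) K) (i : Fin m) :
    col (f i) (polyMap f p) = col i p := by
  have h : (col (K := K) (c := c) (f i)).comp (rename (fun v : Fin c × Fin m => (v.1, f v.2))) = col i := by
    apply MvPolynomial.algHom_ext
    rintro ⟨a, j⟩
    simp only [AlgHom.comp_apply, rename_X, col_X]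
    by_cases h : j = i
    · subst h; simp
    · rw [if_neg h, if_neg]
      intro h2; exact h (hf h2)
  exact AlgHom.congr_fun h p

lemma col_polyMap_of_not {m n : ℕ} (f : Fin m → Fin n)
    (p : MvPolynomial (Fin c × Fin m) K) (k : Fin n) (hk : ∀ i, f i ≠ k) :
    col k (polyMap f p) = C (constantCoeff p) := by
  have h : (col (K := K) (c := c) k).comp (rename (fun v : Fin c × Fin m => (v.1, f v.2))) =
      (Algebra.ofId K (MvPolynomial (Fin c) K)).comp (aeval (fun _ => (0 : K))) := by
    apply MvPolynomial.algHom_ext
    rintro ⟨a, j⟩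
    simp only [AlgHom.comp_apply, rename_X, col_X]
    rw [if_neg (hk j)]
    simp
  have h2 : col k (polyMap f p) = _ := AlgHom.congr_fun h p
  rw [h2, AlgHom.comp_apply]
  have h3 : (aeval (fun _ => (0 : K)) : MvPolynomial (Fin c × Fin m) K →ₐ[K] K) p =
      constantCoeff p := by
    have : ((aeval (fun _ => (0 : K)) : MvPolynomial (Fin c × Fin m) K →ₐ[K] K) :
        MvPolynomial (Fin c × Fin m) K →+* K) = constantCoeff := by
      apply MvPolynomial.ringHom_ext
      · intro r; simp
      · intro i; simp
    exact RingHom.congr_fun this p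
  rw [h3]
  rfl

lemma fibMap_smul {m n : ℕ} (f : Fin m → Fin n) (hf : Function.Injective f)
    (hA : Compat A f) (p : MvPolynomial (Fin c × Fin m) K) (x : fib c A m) :
    fibMap c A f hf hA (p • x) = polyMap f p • fibMap c A f hf hA x := by
  apply Subtype.ext
  apply amb_ext
  · intro j
    change ext0 f (p • x.1).1 j = constantCoeff (polyMap f p) * ext0 f x.1.1 j
    by_cases hj : ∃ i, f i = j
    · obtain ⟨i, rfl⟩ := hj
      rw [ext0_apply f hf, ext0_apply f hf, constantCoeff_polyMap]
      rfl
    · push Not at hj
      rw [ext0_of_not f _ j hj, ext0_of_not f _ j hj, mul_zero]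
  · intro k
    change snd' c A f (p • x.1) k = col k (polyMap f p) * snd' c A f x.1 k
    by_cases hk : ∃ i, f i = k
    · obtain ⟨i, rfl⟩ := hk
      rw [snd'_apply c A f hf hA, snd'_apply c A f hf hA, col_polyMap c f hf]
      rfl
    · push Not at hk
      rw [snd'_of_not c A f _ k hk, snd'_of_not c A f _ k hk, col_polyMap_of_not c f p k hk,
        ← C_mul, Finset.mul_sum]
      congr 1
      apply Finset.sum_congr rfl
      intro j _
      rw [smul_fst]; ring

lemma fibMap_mem {m n : ℕ} (f : Fin m → Fin n) (hf : Function.Injective f)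
    (hA : Compat A f) (e : ℤ) (x : fib c A m) (hx : x ∈ fibGr c A m e) :
    fibMap c A f hf hA x ∈ fibGr c A n e := by
  refine ⟨fun j he => ?_, fun k => ?_⟩
  · rw [fibMap_fst]
    by_cases hj : ∃ i, f i = j
    · obtain ⟨i, rfl⟩ := hj
      rw [ext0_apply f hf]; exact hx.1 i he
    · push Not at hj
      rw [ext0_of_not f _ j hj]
  · rw [fibMap_snd]
    by_cases hk : ∃ i, f i = k
    · obtain ⟨i, rfl⟩ := hk
      rw [snd'_apply c A f hf hA]; exact hx.2 i
    · push Not at hk
      rw [snd'_of_not c A f _ k hk]
      by_cases he : e = 0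
      · subst he
        exact isHomogZ_of_nat (isHomogeneous_C _ _)
      · have : ∑ j, A n k (f j) * x.1.1 j = 0 := by
          apply Finset.sum_eq_zero
          intro j _
          rw [hx.1 j he, mul_zero]
        rw [this, C_0]
        exact IsHomogZ.zero _

/-- the degree zero generator in width one -/
noncomputable def gen0 : fib c A 1 :=
  ⟨(fun _ => 1, fun k => C (A 1 k 0)), by
    intro k
    change constantCoeff (C (A 1 k 0)) = ∑ j, A 1 k j * 1
    rw [constantCoeff_C]; simp⟩

/-- the degree one generators in width one -/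
noncomputable def gen1 (a : Fin c) : fib c A 1 :=
  ⟨(fun _ => 0, fun _ => X a), by
    intro k
    change constantCoeff (X a) = ∑ j, A 1 k j * 0
    simp⟩

/-- all the generators -/
noncomputable def gens : Fin (c + 1) → fib c A 1 := Fin.cases (gen0 c A) (gen1 c A)

/-- the degrees of the generators -/
def gdeg : Fin (c + 1) → ℤ := Fin.cases 0 (fun _ => 1)

lemma gens_mem (k : Fin (c + 1)) : gens c A k ∈ fibGr c A 1 (gdeg c k) := by
  refine Fin.cases ?_ (fun a => ?_) k
  · refine ⟨fun j he => absurd rfl he, fun k => ?_⟩
    exact isHomogZ_of_nat (isHomogeneous_C _ _)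
  · refine ⟨fun j he => rfl, fun k => ?_⟩
    exact isHomogZ_of_nat (isHomogeneous_X _ _)

lemma fibMap_gen0 {n : ℕ} (f : Fin 1 → Fin n) (hf : Function.Injective f)
    (hA : Compat A f) : (fibMap c A f hf hA (gen0 c A)).1 =
      ((fun j => if j = f 0 then 1 else 0), fun k => C (A n k (f 0))) := by
  apply amb_ext
  · intro j
    rw [fibMap_fst]
    by_cases hj : ∃ i, f i = j
    · obtain ⟨i, rfl⟩ := hj
      rw [ext0_apply f hf, Subsingleton.elim i 0]
      simp [gen0]
    · push Not at hj
      rw [ext0_of_not f _ j hj]
      simp [Ne.symm (hj 0)]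
  · intro k
    rw [fibMap_snd]
    by_cases hk : ∃ i, f i = k
    · obtain ⟨i, rfl⟩ := hk
      rw [snd'_apply c A f hf hA, Subsingleton.elim i 0]
      change C (A 1 0 0) = C (A n (f 0) (f 0))
      rw [hA]
    · push Not at hk
      rw [snd'_of_not c A f _ k hk]
      simp [gen0]

lemma fibMap_gen1 {n : ℕ} (f : Fin 1 → Fin n) (hf : Function.Injective f)
    (hA : Compat A f) (a : Fin c) : (fibMap c A f hf hA (gen1 c A a)).1 =
      ((fun _ => 0), fun k => if k = f 0 then X a else 0) := by
  apply amb_ext
  · intro j
    rw [fibMap_fst]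
    by_cases hj : ∃ i, f i = j
    · obtain ⟨i, rfl⟩ := hj
      rw [ext0_apply f hf]
      rfl
    · push Not at hj
      rw [ext0_of_not f _ j hj]
  · intro k
    rw [fibMap_snd]
    by_cases hk : ∃ i, f i = k
    · obtain ⟨i, rfl⟩ := hk
      rw [snd'_apply c A f hf hA, Subsingleton.elim i 0]
      simp [gen1]
    · push Not at hk
      rw [snd'_of_not c A f _ k hk]
      simp [gen1, Ne.symm (hk 0)]

lemma exists_sum_X (p : MvPolynomial (Fin c) K) (h : constantCoeff p = 0) :
    ∃ g : Fin c → MvPolynomial (Fin c) K, p = ∑ a, X a * g a := by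
  classical
  obtain ⟨c', h1, _⟩ := koszul_exact (σ := Fin c) (τ := Fin c) (K := K) (fun a => (a : ℕ))
    Fin.val_injective id Function.injective_id (fun T => if T = ∅ then p else 0)
    (by
      intro T
      apply Finset.sum_eq_zero
      intro t _
      beta_reduce
      rw [if_neg (Finset.insert_ne_empty _ T), mul_zero, smul_zero])
    (by
      intro T hT
      by_cases hTe : T = ∅
      · rw [if_pos hTe, ← constantCoeff_eq] at hT
        exact absurd h hT
      · rw [if_neg hTe] at hT
        simp at hT)
  refine ⟨fun a => c' {a}, ?_⟩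
  have h2 := h1 ∅
  rw [if_pos rfl] at h2
  rw [← h2]
  simp [sg]

/-- the elements obtained from the generators span `M_n` -/
lemma span_gens {n : ℕ} (S : Submodule (MvPolynomial (Fin c × Fin n) K) (fib c A n))
    (hS : ∀ (j : Fin n) (hf : Function.Injective (fun _ : Fin 1 => j))
      (hA : Compat A (fun _ : Fin 1 => j)) (k : Fin (c + 1)),
      fibMap c A (fun _ => j) hf hA (gens c A k) ∈ S)
    (hA : ∀ j : Fin n, Compat A (fun _ : Fin 1 => j)) : S = ⊤ := by
  classical
  have hf : ∀ j : Fin n, Function.Injective (fun _ : Fin 1 => j) := fun j =>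
    Function.injective_of_subsingleton _
  rw [eq_top_iff]
  intro x _
  have hg : ∀ k : Fin n, ∃ g : Fin c → MvPolynomial (Fin c) K,
      x.1.2 k - C (constantCoeff (x.1.2 k)) = ∑ a, X a * g a := by
    intro k
    apply exists_sum_X
    simp
  choose g hg using hg
  have hx : x = ∑ j : Fin n, (C (x.1.1 j) : MvPolynomial (Fin c × Fin n) K) •
        fibMap c A (fun _ => j) (hf j) (hA j) (gen0 c A) +
      ∑ j : Fin n, ∑ a : Fin c, (rename (fun a => (a, j)) (g j a) :
        MvPolynomial (Fin c × Fin n) K) • fibMap c A (fun _ => j) (hf j) (hA j) (gen1 c A a) := by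
    apply Subtype.ext
    apply amb_ext
    · intro j
      rw [Submodule.coe_add, add_fst, coe_sum_fib, sum_fst, coe_sum_fib, sum_fst]
      have h1 : ∀ j' : Fin n, (((C (x.1.1 j') : MvPolynomial (Fin c × Fin n) K) •
          fibMap c A (fun _ => j') (hf j') (hA j') (gen0 c A) : fib c A n) : Amb K c n).1 j =
          if j = j' then x.1.1 j' else 0 := by
        intro j'
        rw [Submodule.coe_smul, smul_fst, constantCoeff_C, fibMap_gen0]
        simp
      have h2 : ∀ j' : Fin n, ((∑ a : Fin c, (rename (fun a => (a, j')) (g j' a) :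
          MvPolynomial (Fin c × Fin n) K) • fibMap c A (fun _ => j') (hf j') (hA j')
            (gen1 c A a) : fib c A n) : Amb K c n).1 j = 0 := by
        intro j'
        rw [coe_sum_fib, sum_fst]
        apply Finset.sum_eq_zero
        intro a _
        rw [Submodule.coe_smul, smul_fst, fibMap_gen1, mul_zero]
      rw [Finset.sum_congr rfl (fun j' _ => h1 j'), Finset.sum_congr rfl (fun j' _ => h2 j')]
      simp
    · intro k
      rw [Submodule.coe_add, add_snd, coe_sum_fib, sum_snd, coe_sum_fib, sum_snd]
      have h1 : ∀ j' : Fin n, (((C (x.1.1 j') : MvPolynomial (Fin c × Fin n) K) •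
          fibMap c A (fun _ => j') (hf j') (hA j') (gen0 c A) : fib c A n) : Amb K c n).2 k =
          C (A n k j' * x.1.1 j') := by
        intro j'
        rw [Submodule.coe_smul, smul_snd, fibMap_gen0]
        change (col k) (C (x.1.1 j')) * C (A n k j') = _
        have : col k (C (x.1.1 j') : MvPolynomial (Fin c × Fin n) K) = C (x.1.1 j') := by
          simp [col]
        rw [this, ← C_mul, mul_comm]
      have h2 : ∀ j' : Fin n, ((∑ a : Fin c, (rename (fun a => (a, j')) (g j' a) :
          MvPolynomial (Fin c × Fin n) K) • fibMap c A (fun _ => j') (hf j') (hA j')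
            (gen1 c A a) : fib c A n) : Amb K c n).2 k =
          if k = j' then ∑ a, X a * g j' a else 0 := by
        intro j'
        rw [coe_sum_fib, sum_snd]
        have h3 : ∀ a : Fin c, (((rename (fun a => (a, j')) (g j' a) :
          MvPolynomial (Fin c × Fin n) K) • fibMap c A (fun _ => j') (hf j') (hA j')
            (gen1 c A a) : fib c A n) : Amb K c n).2 k =
            if k = j' then X a * g j' a else 0 := by
          intro a
          rw [Submodule.coe_smul, smul_snd, fibMap_gen1]
          by_cases hk : k = j'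
          · subst hk
            simp only [if_true]
            have h4 : col k (rename (fun a => (a, k)) (g k a) :
                MvPolynomial (Fin c × Fin n) K) = g k a := by
              have h5 : (col (K := K) (c := c) k).comp (rename (fun a => (a, k))) =
                  AlgHom.id K (MvPolynomial (Fin c) K) := by
                apply MvPolynomial.algHom_ext
                intro i
                simp [col_X]
              exact AlgHom.congr_fun h5 (g k a)
            rw [h4, mul_comm]
          · simp [hk]
        rw [Finset.sum_congr rfl (fun a _ => h3 a)]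
        split_ifs
        · rfl
        · simp
      rw [Finset.sum_congr rfl (fun j' _ => h1 j'), Finset.sum_congr rfl (fun j' _ => h2 j')]
      simp only [Finset.sum_ite_eq, Finset.mem_univ, if_true]
      rw [← hg k, ← map_sum, ← x.2 k]
      ring
  rw [hx]
  apply Submodule.add_mem
  · apply Submodule.sum_mem
    intro j _
    apply Submodule.smul_mem
    exact hS j (hf j) (hA j) 0
  · apply Submodule.sum_mem
    intro j _
    apply Submodule.sum_mem
    intro a _
    apply Submodule.smul_mem
    exact hS j (hf j) (hA j) a.succ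

end Maps

end Pool.Agent.H42
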