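import Pool.Agent.H42.Exist

/-!
The graded modules `M_n = {(v, g) : v ∈ K^n, g_k ∈ K[x_1, …, x_c], g_k(0) = (A_n v)_k}` over
`P_n = K[x_{i,k} : i < c, k < n]`, for square matrices `A_n`.
-/

namespace Pool.Agent.H42

open MvPolynomial Finset

universe u

section Internal

lemma isInternal_of_pr {M : Type u} [AddCommGroup M] (gr : ℤ → AddSubgroup M) (pr : ℤ → M →+ M)
    (pr_mem : ∀ e x, pr e x ∈ gr e) (pr_self : ∀ e x, x ∈ gr e → pr e x = x)
    (pr_ne : ∀ e e' x, x ∈ gr e' → e' ≠ e → pr e x = 0)
    (sum_pr : ∀ x, ∃ s : Finset ℤ, ∑ e ∈ s, pr e x = x) : DirectSum.IsInternal gr := by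
  classical
  have key : ∀ (d : DirectSum ℤ (fun e => gr e)) (e : ℤ),
      pr e (DirectSum.coeAddMonoidHom gr d) = (d e : M) := by
    intro d e
    induction d using DirectSum.induction_on with
    | zero => simp
    | of e' x =>
      rw [DirectSum.coeAddMonoidHom_of]
      by_cases h : e' = e
      · subst h
        rw [pr_self _ _ x.2, DirectSum.of_eq_same]
      · rw [pr_ne e e' _ x.2 h, DirectSum.of_eq_of_ne _ _ _ (Ne.symm h)]
        rfl
    | add x y hx hy =>
      rw [map_add, map_add, hx, hy, DirectSum.add_apply]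
      rfl
  constructor
  · rw [injective_iff_map_eq_zero]
    intro d hd
    ext e
    rw [← key d e, hd, map_zero]
    rfl
  · intro x
    obtain ⟨s, hs⟩ := sum_pr x
    refine ⟨∑ e ∈ s, DirectSum.of (fun e => gr e) e ⟨pr e x, pr_mem e x⟩, ?_⟩
    rw [map_sum]
    simp only [DirectSum.coeAddMonoidHom_of]
    exact hs

end Internal

section Ambient

variable (K : Type u) [Field K] (c n : ℕ)

/-- the ambient module `K^n × ∏_k K[x_1, …, x_c]` -/
def Amb : Type u := (Fin n → K) × (Fin n → MvPolynomial (Fin c) K)

noncomputable instance : AddCommGroup (Amb K c n) :=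
  inferInstanceAs (AddCommGroup ((Fin n → K) × (Fin n → MvPolynomial (Fin c) K)))

variable {K c n}

/-- the map `P_n → K[x_1, …, x_c]` killing the variables outside the column `k` -/
noncomputable def col (k : Fin n) : MvPolynomial (Fin c × Fin n) K →ₐ[K] MvPolynomial (Fin c) K :=
  aeval (fun p => if p.2 = k then X p.1 else 0)

lemma col_X (k : Fin n) (p : Fin c × Fin n) :
    col k (X p : MvPolynomial (Fin c × Fin n) K) = if p.2 = k then X p.1 else 0 := by
  simp [col]

lemma constantCoeff_col (k : Fin n) (p : MvPolynomial (Fin c × Fin n) K) :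
    constantCoeff (col k p) = constantCoeff p := by
  have h : (constantCoeff : MvPolynomial (Fin c) K →+* K).comp (col (K := K) (c := c) k).toRingHom =
      constantCoeff := by
    apply MvPolynomial.ringHom_ext
    · intro r
      simp [col]
    · intro i
      simp only [RingHom.coe_comp, Function.comp_apply, AlgHom.toRingHom_eq_coe, RingHom.coe_coe,
        col_X, constantCoeff_X]
      split_ifs <;> simp
  exact RingHom.congr_fun h p

lemma col_isHomogeneous (k : Fin n) {p : MvPolynomial (Fin c × Fin n) K} {d : ℕ}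
    (hp : p.IsHomogeneous d) : (col k p).IsHomogeneous d := by
  have := hp.aeval (fun p : Fin c × Fin n => if p.2 = k then (X p.1 : MvPolynomial (Fin c) K)
    else 0) (n := 1) (by
      intro i
      split_ifs
      · exact isHomogeneous_X K _
      · exact isHomogeneous_zero _ _ _)
  rwa [one_mul] at this

noncomputable instance : Module (MvPolynomial (Fin c × Fin n) K) (Amb K c n) where
  smul p x := (fun j => constantCoeff p * x.1 j, fun k => col k p * x.2 k)
  one_smul x := by
    apply Prod.ext
    · funext j; change constantCoeff 1 * x.1 j = x.1 j; simp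
    · funext k; change col k 1 * x.2 k = x.2 k; simp
  mul_smul p q x := by
    apply Prod.ext
    · funext j
      change constantCoeff (p * q) * x.1 j = constantCoeff p * (constantCoeff q * x.1 j)
      rw [map_mul, mul_assoc]
    · funext k
      change col k (p * q) * x.2 k = col k p * (col k q * x.2 k)
      rw [map_mul, mul_assoc]
  smul_zero p := by
    apply Prod.ext
    · funext j; exact mul_zero _
    · funext k; exact mul_zero _
  smul_add p x y := by
    apply Prod.ext
    · funext j; exact mul_add _ _ _
    · funext k; exact mul_add _ _ _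
  add_smul p q x := by
    apply Prod.ext
    · funext j
      change constantCoeff (p + q) * x.1 j = constantCoeff p * x.1 j + constantCoeff q * x.1 j
      rw [map_add, add_mul]
    · funext k
      change col k (p + q) * x.2 k = col k p * x.2 k + col k q * x.2 k
      rw [map_add, add_mul]
  zero_smul x := by
    apply Prod.ext
    · funext j
      change constantCoeff 0 * x.1 j = 0
      rw [map_zero, zero_mul]
    · funext k
      change col k 0 * x.2 k = 0
      rw [map_zero, zero_mul]

lemma smul_fst (p : MvPolynomial (Fin c × Fin n) K) (x : Amb K c n) (j : Fin n) :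
    (p • x).1 j = constantCoeff p * x.1 j := rfl

lemma smul_snd (p : MvPolynomial (Fin c × Fin n) K) (x : Amb K c n) (k : Fin n) :
    (p • x).2 k = col k p * x.2 k := rfl

lemma add_fst (x y : Amb K c n) (j : Fin n) : (x + y).1 j = x.1 j + y.1 j := rfl

lemma add_snd (x y : Amb K c n) (k : Fin n) : (x + y).2 k = x.2 k + y.2 k := rfl

lemma zero_fst (j : Fin n) : (0 : Amb K c n).1 j = 0 := rfl

lemma zero_snd (k : Fin n) : (0 : Amb K c n).2 k = 0 := rfl

/-- first projection -/
noncomputable def fstHom (j : Fin n) : Amb K c n →+ K where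
  toFun x := x.1 j
  map_zero' := rfl
  map_add' _ _ := rfl

/-- second projection -/
noncomputable def sndHom (k : Fin n) : Amb K c n →+ MvPolynomial (Fin c) K where
  toFun x := x.2 k
  map_zero' := rfl
  map_add' _ _ := rfl

lemma sum_fst {ι : Type*} (s : Finset ι) (f : ι → Amb K c n) (j : Fin n) :
    (∑ i ∈ s, f i).1 j = ∑ i ∈ s, (f i).1 j := map_sum (fstHom j) f s

lemma sum_snd {ι : Type*} (s : Finset ι) (f : ι → Amb K c n) (k : Fin n) :
    (∑ i ∈ s, f i).2 k = ∑ i ∈ s, (f i).2 k := map_sum (sndHom k) f s

lemma zsmul_fst (a : ℤ) (x : Amb K c n) (j : Fin n) : (a • x).1 j = a • x.1 j :=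
  map_zsmul (fstHom j) a x

lemma zsmul_snd (a : ℤ) (x : Amb K c n) (k : Fin n) : (a • x).2 k = a • x.2 k :=
  map_zsmul (sndHom k) a x

lemma amb_ext {x y : Amb K c n} (h1 : ∀ j, x.1 j = y.1 j) (h2 : ∀ k, x.2 k = y.2 k) : x = y :=
  Prod.ext (funext h1) (funext h2)

end Ambient

section FibreModule

variable {K : Type u} [Field K] (c : ℕ) (A : (n : ℕ) → Fin n → Fin n → K)

/-- the module `M_n` -/
noncomputable def fib (n : ℕ) : Submodule (MvPolynomial (Fin c × Fin n) K) (Amb K c n) where
  carrier := {x | ∀ k, constantCoeff (x.2 k) = ∑ j, A n k j * x.1 j}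
  add_mem' := by
    intro x y hx hy k
    rw [add_snd, map_add, hx k, hy k, ← Finset.sum_add_distrib]
    apply Finset.sum_congr rfl
    intro j _
    rw [add_fst, mul_add]
  zero_mem' := by
    intro k
    rw [zero_snd, map_zero]
    symm
    apply Finset.sum_eq_zero
    intro j _
    rw [zero_fst, mul_zero]
  smul_mem' := by
    intro p x hx k
    rw [smul_snd, map_mul, constantCoeff_col, hx k, Finset.mul_sum]
    apply Finset.sum_congr rfl
    intro j _
    rw [smul_fst]; ring

lemma mem_fib {n : ℕ} (x : Amb K c n) :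
    x ∈ fib c A n ↔ ∀ k, constantCoeff (x.2 k) = ∑ j, A n k j * x.1 j := Iff.rfl

/-- the grading of `M_n` -/
noncomputable def fibGr (n : ℕ) (e : ℤ) : AddSubgroup (fib c A n) where
  carrier := {x | (∀ j, e ≠ 0 → x.1.1 j = 0) ∧ ∀ k, IsHomogZ (x.1.2 k) e}
  zero_mem' := ⟨fun _ _ => rfl, fun _ => IsHomogZ.zero _⟩
  add_mem' := by
    intro x y hx hy
    refine ⟨fun j he => ?_, fun k => (hx.2 k).add (hy.2 k)⟩
    change x.1.1 j + y.1.1 j = 0
    rw [hx.1 j he, hy.1 j he, add_zero]
  neg_mem' := by
    intro x hx
    refine ⟨fun j he => ?_, fun k => (hx.2 k).neg⟩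
    change - x.1.1 j = 0
    rw [hx.1 j he, neg_zero]

lemma mem_fibGr {n : ℕ} {e : ℤ} (x : fib c A n) :
    x ∈ fibGr c A n e ↔ (∀ j, e ≠ 0 → x.1.1 j = 0) ∧ ∀ k, IsHomogZ (x.1.2 k) e := Iff.rfl

lemma constantCoeff_hcz (e : ℤ) (p : MvPolynomial (Fin c) K) :
    constantCoeff (hcz e p) = if e = 0 then constantCoeff p else 0 := by
  rw [constantCoeff_eq, coeff_hcz]
  simp only [map_zero, Nat.cast_zero]
  by_cases h : e = 0
  · subst h; simp [constantCoeff_eq]
  · rw [if_neg (Ne.symm h), if_neg h]

/-- the projections of `M_n` onto its homogeneous components -/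
noncomputable def fibPr (n : ℕ) (e : ℤ) : fib c A n →+ fib c A n where
  toFun x := ⟨(fun j => if e = 0 then x.1.1 j else 0, fun k => hcz e (x.1.2 k)), by
    intro k
    change constantCoeff (hcz e (x.1.2 k)) = ∑ j, A n k j * (if e = 0 then x.1.1 j else 0)
    rw [constantCoeff_hcz, x.2 k]
    split_ifs
    · rfl
    · simp⟩
  map_zero' := by
    apply Subtype.ext
    apply amb_ext
    · intro j
      change (if e = 0 then (0 : K) else 0) = 0
      split_ifs <;> rfl
    · intro k
      exact map_zero _
  map_add' x y := by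
    apply Subtype.ext
    apply amb_ext
    · intro j
      change (if e = 0 then x.1.1 j + y.1.1 j else 0) =
        (if e = 0 then x.1.1 j else 0) + (if e = 0 then y.1.1 j else 0)
      split_ifs <;> simp
    · intro k
      exact map_add _ _ _

lemma fibPr_fst {n : ℕ} (e : ℤ) (x : fib c A n) (j : Fin n) :
    (fibPr c A n e x).1.1 j = if e = 0 then x.1.1 j else 0 := rfl

lemma fibPr_snd {n : ℕ} (e : ℤ) (x : fib c A n) (k : Fin n) :
    (fibPr c A n e x).1.2 k = hcz e (x.1.2 k) := rfl

lemma coe_sum_fib {n : ℕ} {ι : Type*} (s : Finset ι) (f : ι → fib c A n) :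
    ((∑ i ∈ s, f i : fib c A n) : Amb K c n) = ∑ i ∈ s, (f i : Amb K c n) :=
  map_sum (fib c A n).subtype f s

lemma fib_internal (n : ℕ) : DirectSum.IsInternal (fibGr c A n) := by
  classical
  apply isInternal_of_pr (fibGr c A n) (fibPr c A n)
  · intro e x
    refine ⟨fun j he => ?_, fun k => ?_⟩
    · rw [fibPr_fst, if_neg he]
    · rw [fibPr_snd]; exact hcz_isHomogZ _ _
  · intro e x hx
    apply Subtype.ext
    apply amb_ext
    · intro j
      rw [fibPr_fst]
      split_ifs with h
      · rfl
      · exact (hx.1 j h).symm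
    · intro k
      rw [fibPr_snd, hcz_self (hx.2 k)]
  · intro e e' x hx hne
    apply Subtype.ext
    apply amb_ext
    · intro j
      rw [fibPr_fst]
      split_ifs with h
      · subst h
        exact hx.1 j hne
      · rfl
    · intro k
      rw [fibPr_snd, hcz_ne (hx.2 k) hne]
      rfl
  · intro x
    let s : Finset ℤ := insert 0 (univ.biUnion (fun k : Fin n =>
      (x.1.2 k).support.image (fun β => (β.degree : ℤ))))
    refine ⟨s, ?_⟩
    apply Subtype.ext
    rw [coe_sum_fib]
    apply amb_ext
    · intro j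
      rw [sum_fst]
      simp only [fibPr_fst]
      rw [Finset.sum_ite_eq' s 0, if_pos (Finset.mem_insert_self _ _)]
    · intro k
      rw [sum_snd]
      simp only [fibPr_snd]
      have := sum_hcz (x.1.2 k) 0 s (by
        intro β hβ
        rw [zero_add]
        apply Finset.mem_insert_of_mem
        rw [Finset.mem_biUnion]
        refine ⟨k, Finset.mem_univ _, ?_⟩
        rw [Finset.mem_image]
        exact ⟨β, mem_support_iff.2 hβ, rfl⟩)
      simpa using this

/-- the graded module `M_n` -/
noncomputable def fibMod (n : ℕ) : GrMod (Fin c × Fin n) K where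
  carrier := fib c A n
  gr := fibGr c A n
  internal := fib_internal c A n
  smul_mem := by
    intro d e p x hp hx
    refine ⟨fun j he => ?_, fun k => ?_⟩
    · change constantCoeff p * x.1.1 j = 0
      by_cases hd : d = 0
      · rw [hx.1 j (by rintro rfl; apply he; rw [hd]; simp), mul_zero]
      · have : constantCoeff p = 0 := by
          rw [constantCoeff_eq]
          apply hp.coeff_eq_zero
          rw [map_zero]
          exact Ne.symm hd
        rw [this, zero_mul]
    · change IsHomogZ (col k p * x.1.2 k) ((d : ℤ) + e)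
      exact (isHomogZ_of_nat (col_isHomogeneous k hp)).mul (hx.2 k)

end FibreModule

end Pool.Agent.H42
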