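import Pool.Agent.H42.FibreMaps

/-!
The regularity of the modules `M_n`.
-/

namespace Pool.Agent.H42

open MvPolynomial Finset

universe u

section Reg

variable {K : Type u} [Field K] (c : ℕ) (A : (n : ℕ) → Fin n → Fin n → K)

lemma bd_amb_fst {n : ℕ} (ρ : Fin c × Fin n → ℕ) (z : Finset (Fin c × Fin n) → Amb K c n)
    (T : Finset (Fin c × Fin n)) (j : Fin n) : (bd K ρ z T).1 j = 0 := by
  unfold bd
  rw [sum_fst]
  apply Finset.sum_eq_zero
  intro s _
  rw [zsmul_fst, smul_fst]
  simp

lemma bd_amb_snd {n : ℕ} (ρ : Fin c × Fin n → ℕ) (z : Finset (Fin c × Fin n) → Amb K c n)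
    (T : Finset (Fin c × Fin n)) (k : Fin n) : (bd K ρ z T).2 k =
      ∑ a ∈ univ.filter (fun a : Fin c => (a, k) ∉ T),
        sg ρ (a, k) T • (X a * (z (insert (a, k) T)).2 k) := by
  unfold bd
  rw [sum_snd, Finset.sum_filter, Fintype.sum_prod_type, Finset.sum_filter]
  apply Finset.sum_congr rfl
  intro a _
  rw [Finset.sum_eq_single k]
  · by_cases h : (a, k) ∉ T
    · rw [if_pos h, if_pos h, zsmul_snd, smul_snd, col_X]
      simp
    · rw [if_neg h, if_neg h]
  · intro k' _ hk'
    by_cases h : (a, k') ∉ T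
    · rw [if_pos h, zsmul_snd, smul_snd, col_X]
      simp [hk']
    · rw [if_neg h]
  · intro h; exact absurd (Finset.mem_univ _) h

lemma bd_fib {n : ℕ} (ρ : Fin c × Fin n → ℕ) (z : Finset (Fin c × Fin n) → fib c A n)
    (T : Finset (Fin c × Fin n)) :
    ((bd K ρ z T : fib c A n) : Amb K c n) = bd K ρ (fun S => (z S : Amb K c n)) T :=
  (bd_map K ρ (fib c A n).subtype z T).symm

/-- exactness away from the low strands -/
lemma fib_ex {n : ℕ} (ρ : Fin c × Fin n → ℕ) (hρ : Function.Injective ρ) (i : ℕ) (j : ℤ)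
    (h : 2 ≤ j - i ∨ (j - i = 1 ∧ ∀ u : Fin n → K, ∃ v : Fin n → K,
      ∀ k, ∑ j, A n k j * v j = u k)) :
    Ex K ρ (fibMod c A n).data ⊤ i j := by
  classical
  intro z _ hgr hsupp hcyc
  change Finset (Fin c × Fin n) → fib c A n at z
  change ∀ T, z T ∈ fibGr c A n (j - T.card) at hgr
  have hi : 1 ≤ j - i := by
    rcases h with h | h
    · omega
    · omega
  have hk : ∀ k : Fin n, ∃ c' : Finset (Fin c × Fin n) → MvPolynomial (Fin c) K,
      (∀ T, ∑ a ∈ univ.filter (fun a : Fin c => (a, k) ∉ T),
        sg ρ (a, k) T • (X a * c' (insert (a, k) T)) = (z T).1.2 k) ∧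
      (∀ T β, coeff β (c' T) ≠ 0 → ∃ a : Fin c, (a, k) ∈ T ∧
        coeff (β + Finsupp.single a 1) ((z (T.erase (a, k))).1.2 k) ≠ 0) := by
    intro k
    apply koszul_exact ρ hρ (fun a => (a, k)) (fun a b hab => (Prod.mk.inj hab).1)
      (fun T => (z T).1.2 k)
    · intro T
      have h1 := congrArg (fun x : fib c A n => x.1.2 k) (hcyc T)
      beta_reduce at h1
      have h2 : ((bd K ρ z T : fib c A n) : Amb K c n).2 k = 0 := h1
      rw [bd_fib, bd_amb_snd] at h2
      exact h2
    · intro T hT
      exfalso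
      apply hT
      by_cases hc : T.card = i
      · by_contra h3
        have h4 := (hgr T).2 k
        rw [isHomogZ_iff_coeff] at h4
        have h5 := h4 0 h3
        simp only [map_zero, Nat.cast_zero] at h5
        omega
      · beta_reduce
        rw [hsupp T hc]
        rfl
  choose c' hc1 hc2 using hk
  have hc0 : ∀ T, T.card ≠ i + 1 → ∀ k, c' k T = 0 := by
    intro T hT k
    by_contra h1
    obtain ⟨β, hβ⟩ := MvPolynomial.ne_zero_iff.1 h1
    obtain ⟨t, ht, hne⟩ := hc2 k T β hβ
    have h3 : (T.erase (t, k)).card + 1 = T.card := Finset.card_erase_add_one ht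
    rw [hsupp _ (by omega)] at hne
    change coeff _ (0 : MvPolynomial (Fin c) K) ≠ 0 at hne
    simp at hne
  have hchom : ∀ T k, IsHomogZ (c' k T) (j - T.card) := by
    intro T k
    rw [isHomogZ_iff_coeff]
    intro β hβ
    obtain ⟨t, ht, hne⟩ := hc2 k T β hβ
    have h1 := (hgr (T.erase (t, k))).2 k
    rw [isHomogZ_iff_coeff] at h1
    have h2 := h1 _ hne
    have h3 : (T.erase (t, k)).card + 1 = T.card := Finset.card_erase_add_one ht
    rw [map_add, Finsupp.degree_single] at h2
    push_cast at h2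
    have h4 : ((T.erase (t, k)).card : ℤ) + 1 = T.card := by exact_mod_cast h3
    linarith
  have hv : ∀ T : Finset (Fin c × Fin n), ∃ v : Fin n → K,
      (∀ k, constantCoeff (c' k T) = ∑ j, A n k j * v j) ∧ (T.card ≠ i + 1 → v = 0) ∧
      (j - T.card ≠ 0 → v = 0) := by
    intro T
    by_cases hT : T.card = i + 1
    · by_cases hj : j - i = 1
      · have hsurj : ∀ u : Fin n → K, ∃ v : Fin n → K, ∀ k, ∑ j, A n k j * v j = u k := by
          rcases h with h | h
          · omega
          · exact h.2
        obtain ⟨v, hv⟩ := hsurj (fun k => constantCoeff (c' k T))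
        refine ⟨v, fun k => (hv k).symm, fun h => absurd hT h, fun h => ?_⟩
        exfalso; apply h; rw [hT]; push_cast; omega
      · refine ⟨0, fun k => ?_, fun _ => rfl, fun _ => rfl⟩
        simp only [Pi.zero_apply, mul_zero, Finset.sum_const_zero]
        by_contra h1
        rw [constantCoeff_eq] at h1
        have h2 := hchom T k
        rw [isHomogZ_iff_coeff] at h2
        have h3 := h2 0 h1
        simp only [map_zero, Nat.cast_zero] at h3
        rw [hT] at h3
        push_cast at h3
        omega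
    · refine ⟨0, fun k => ?_, fun _ => rfl, fun _ => rfl⟩
      rw [hc0 T hT k]
      simp
  choose v hv1 hv2 hv3 using hv
  refine ⟨fun T => (⟨(v T, fun k => c' k T), fun k => hv1 T k⟩ : fib c A n),
    fun T => Submodule.mem_top, ?_, ?_, ?_⟩
  · intro T
    refine ⟨fun j' he => ?_, fun k => hchom T k⟩
    change v T j' = 0
    rw [hv3 T he]; rfl
  · intro T hT
    apply Subtype.ext
    apply amb_ext
    · intro j'
      change v T j' = 0
      rw [hv2 T hT]; rfl
    · intro k
      exact hc0 T hT k
  · intro T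
    apply Subtype.ext
    apply amb_ext
    · intro j'
      have h1 : (((bd K ρ (fun T => (⟨(v T, fun k => c' k T), fun k => hv1 T k⟩ : fib c A n)) T :
          fib c A n)) : Amb K c n).1 j' = 0 := by
        rw [bd_fib, bd_amb_fst]
      have h2 : (z T).1.1 j' = 0 := by
        by_cases hc : T.card = i
        · apply (hgr T).1 j'
          rw [hc]; omega
        · rw [hsupp T hc]; rfl
      exact h1.trans h2.symm
    · intro k
      have h1 : (((bd K ρ (fun T => (⟨(v T, fun k => c' k T), fun k => hv1 T k⟩ : fib c A n)) T :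
          fib c A n)) : Amb K c n).2 k = (z T).1.2 k := by
        rw [bd_fib, bd_amb_snd]
        exact hc1 k T
      exact h1

/-- non-exactness in the first strand -/
lemma fib_not_ex {n : ℕ} (hc : 1 ≤ c) (hn : 1 ≤ n) (ρ : Fin c × Fin n → ℕ)
    (hρ : Function.Injective ρ)
    (h : ¬ ∀ u : Fin n → K, ∃ v : Fin n → K, ∀ k, ∑ j, A n k j * v j = u k) :
    ¬ Ex K ρ (fibMod c A n).data ⊤ (Fintype.card (Fin c × Fin n) - 1)
      (Fintype.card (Fin c × Fin n)) := by
  classical
  intro hex
  push Not at h
  obtain ⟨u, hu⟩ := h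
  have hcard : 1 ≤ Fintype.card (Fin c × Fin n) := by
    rw [Fintype.card_prod, Fintype.card_fin, Fintype.card_fin]
    exact Nat.mul_pos hc hn
  set N := Fintype.card (Fin c × Fin n) with hN
  let c0 : Finset (Fin c × Fin n) → Amb K c n := fun T =>
    if T = univ then ((fun _ => 0, fun k => C (u k)) : Amb K c n) else 0
  have hc0 : ∀ T, c0 T = if T = univ then ((fun _ => 0, fun k => C (u k)) : Amb K c n) else 0 :=
    fun _ => rfl
  have hmem : ∀ T, bd K ρ c0 T ∈ fib c A n := by
    intro T k
    rw [bd_amb_snd, map_sum]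
    simp only [bd_amb_fst, mul_zero, Finset.sum_const_zero]
    apply Finset.sum_eq_zero
    intro a _
    rw [map_zsmul, map_mul, constantCoeff_X, zero_mul, smul_zero]
  let z : Finset (Fin c × Fin n) → fib c A n := fun T => ⟨bd K ρ c0 T, hmem T⟩
  have hins : ∀ (T : Finset (Fin c × Fin n)) (s : Fin c × Fin n), s ∉ T → insert s T = univ →
      T.card + 1 = N := by
    intro T s hs hT
    rw [← Finset.card_insert_of_notMem hs, hT, Finset.card_univ]
  obtain ⟨w, _, hw2, hw3, hw4⟩ := hex z (fun _ => Submodule.mem_top) (by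
      intro T
      refine ⟨fun j he => ?_, fun k => ?_⟩
      · change (bd K ρ c0 T).1 j = 0
        rw [bd_amb_fst]
      · change IsHomogZ ((bd K ρ c0 T).2 k) ((N : ℤ) - T.card)
        rw [bd_amb_snd, isHomogZ_iff_coeff]
        intro β hβ
        rw [coeff_sum] at hβ
        obtain ⟨a, ha, hne⟩ := Finset.exists_ne_zero_of_sum_ne_zero hβ
        rw [Finset.mem_filter] at ha
        rw [hc0] at hne
        by_cases hT : insert (a, k) T = univ
        · rw [if_pos hT, coeff_smul] at hne
          have h1 : coeff β (X a * C (u k) : MvPolynomial (Fin c) K) ≠ 0 := by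
            intro h2
            apply hne
            change sg ρ (a, k) T • coeff β (X a * C (u k) : MvPolynomial (Fin c) K) = 0
            rw [h2, smul_zero]
          have h3 : (X a * C (u k) : MvPolynomial (Fin c) K).IsHomogeneous (1 + 0) :=
            (isHomogeneous_X K a).mul (isHomogeneous_C _ _)
          have h4 := (isHomogZ_iff_coeff _ _).1 (isHomogZ_of_nat h3) β h1
          rw [h4]
          have := hins T (a, k) ha.2 hT
          push_cast
          omega
        · rw [if_neg hT] at hne
          change coeff β (sg ρ (a, k) T • (X a * (0 : MvPolynomial (Fin c) K))) ≠ 0 at hne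
          simp at hne) (by
      intro T hT
      apply Subtype.ext
      have h1 := bd_supp K ρ c0 (N - 1) (by
        intro S hS
        have hSu : S ≠ univ := by
          rintro rfl
          apply hS
          rw [Finset.card_univ]
          omega
        rw [hc0, if_neg hSu]
        rfl) T hT
      exact h1) (by
      intro T
      apply Subtype.ext
      have h1 : ((bd K ρ z T : fib c A n) : Amb K c n) = 0 := by
        rw [bd_fib]
        exact bd_bd K ρ hρ c0 T
      exact h1)
  change Finset (Fin c × Fin n) → fib c A n at w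
  -- compare at the complement of one element
  have hkey : ∀ (a : Fin c) (k : Fin n), (w univ).1.2 k = C (u k) := by
    intro a k
    have h1 := hw4 (univ.erase (a, k))
    have h2 : ((bd K ρ w (univ.erase (a, k)) : fib c A n) : Amb K c n).2 k =
        (bd K ρ c0 (univ.erase (a, k))).2 k := by
      have := congrArg (fun x : fib c A n => x.1.2 k) h1
      exact this
    rw [bd_fib, bd_amb_snd, bd_amb_snd] at h2
    have h3 : univ.filter (fun b : Fin c => (b, k) ∉ univ.erase (a, k)) = {a} := by
      ext b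
      simp
    rw [h3, Finset.sum_singleton, Finset.sum_singleton] at h2
    have h4 : insert (a, k) (univ.erase (a, k)) = (univ : Finset (Fin c × Fin n)) :=
      Finset.insert_erase (Finset.mem_univ _)
    rw [h4, hc0, if_pos rfl] at h2
    have h5 := congrArg (fun x => sg ρ (a, k) (univ.erase (a, k)) • x) h2
    simp only [smul_smul, sg_mul_self, one_smul] at h5
    exact mul_left_cancel₀ (X_ne_zero a) h5
  have h6 := (w univ).2
  obtain ⟨k, hk⟩ := hu (w univ).1.1
  apply hk
  have h7 := h6 k
  rw [hkey ⟨0, hc⟩ k, constantCoeff_C] at h7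
  exact h7.symm

lemma fib_not_ex_zero {n : ℕ} (hn : 1 ≤ n) (ρ : Fin c × Fin n → ℕ) :
    ¬ Ex K ρ (fibMod c A n).data ⊤ 0 0 := by
  classical
  intro hex
  let x0 : fib c A n := ⟨(fun _ => 1, fun k => C (∑ j, A n k j * 1)), fun k => by
    change constantCoeff (C (∑ j, A n k j * 1)) = _
    rw [constantCoeff_C]⟩
  have hz : ∃ z0 : Finset (Fin c × Fin n) → fib c A n, z0 ∅ = x0 ∧ ∀ T, T ≠ ∅ → z0 T = 0 :=
    ⟨fun T => if T = ∅ then x0 else 0, by simp, fun T hT => by simp [hT]⟩
  obtain ⟨z0, hz1, hz2⟩ := hz
  obtain ⟨w, _, _, _, hw4⟩ := hex z0 (fun _ => Submodule.mem_top) (by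
      intro T
      by_cases hT : T = ∅
      · subst hT
        rw [hz1]
        refine ⟨fun j he => absurd (by simp) he, fun k => ?_⟩
        change IsHomogZ (C (∑ j, A n k j * 1)) _
        rw [Finset.card_empty]
        exact isHomogZ_of_nat (isHomogeneous_C _ _)
      · rw [hz2 T hT]
        exact AddSubgroup.zero_mem _) (by
      intro T hT
      apply hz2
      rintro rfl
      simp at hT) (by
      intro T
      unfold bd
      apply Finset.sum_eq_zero
      intro s _
      rw [hz2 _ (Finset.insert_ne_empty s T)]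
      change sg ρ s T • (X s : MvPolynomial (Fin c × Fin n) K) • (0 : fib c A n) = 0
      rw [smul_zero, smul_zero])
  change Finset (Fin c × Fin n) → fib c A n at w
  have h1 : bd K ρ w ∅ = x0 := (hw4 ∅).trans hz1
  have h2 : ((bd K ρ w ∅ : fib c A n) : Amb K c n).1 ⟨0, hn⟩ = 1 := by
    have := congrArg (fun x : fib c A n => x.1.1 ⟨0, hn⟩) h1
    exact this
  rw [bd_fib, bd_amb_fst] at h2
  exact zero_ne_one h2

/-- the regularity of `M_n` -/
theorem fib_regularity {n : ℕ} (hc : 1 ≤ c) (hn : 1 ≤ n)
    (hfg : (⊤ : Submodule (MvPolynomial (Fin c × Fin n) K) (fibMod c A n).carrier).FG) :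
    ((∀ u : Fin n → K, ∃ v : Fin n → K, ∀ k, ∑ j, A n k j * v j = u k) →
      HasRegularity (fibMod c A n) 0) ∧
    ((¬ ∀ u : Fin n → K, ∃ v : Fin n → K, ∀ k, ∑ j, A n k j * v j = u k) →
      HasRegularity (fibMod c A n) 1) := by
  classical
  let ρ : Fin c × Fin n → ℕ := fun s => (Fintype.equivFin (Fin c × Fin n) s : ℕ)
  have hρ : Function.Injective ρ := fun s t h =>
    (Fintype.equivFin (Fin c × Fin n)).injective (Fin.val_injective h)
  constructor
  · intro hsurj
    refine ⟨exists_minRes _ hfg, fun F => ⟨?_, ?_⟩⟩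
    · refine ⟨0, 0, ?_, by simp⟩
      intro h
      exact fib_not_ex_zero c A hn ρ ((F.ex_iff ρ hρ 0 0).2 h)
    · rintro s ⟨i, j, hb, rfl⟩
      by_contra hlt
      push Not at hlt
      apply hb
      rw [← F.ex_iff ρ hρ]
      apply fib_ex c A ρ hρ
      by_cases h1 : j - i = 1
      · exact Or.inr ⟨h1, hsurj⟩
      · left; omega
  · intro hns
    refine ⟨exists_minRes _ hfg, fun F => ⟨?_, ?_⟩⟩
    · refine ⟨Fintype.card (Fin c × Fin n) - 1, Fintype.card (Fin c × Fin n), ?_, ?_⟩
      · intro h
        exact fib_not_ex c A hc hn ρ hρ hns ((F.ex_iff ρ hρ _ _).2 h)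
      · have hcard : 1 ≤ Fintype.card (Fin c × Fin n) := by
          rw [Fintype.card_prod, Fintype.card_fin, Fintype.card_fin]
          exact Nat.mul_pos hc hn
        omega
    · rintro s ⟨i, j, hb, rfl⟩
      by_contra hlt
      push Not at hlt
      apply hb
      rw [← F.ex_iff ρ hρ]
      apply fib_ex c A ρ hρ
      left; omega

end Reg

end Pool.Agent.H42
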