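import Mathlib

/-!
Koszul chains with explicit signs, and exactness of the Koszul complex of a polynomial ring.
-/

namespace Pool.Agent.H42

open MvPolynomial Finset

universe u

section Signs

variable {σ : Type} [DecidableEq σ]

/-- the sign of `s` with respect to the finite set `T` -/
def sg (ρ : σ → ℕ) (s : σ) (T : Finset σ) : ℤ := (-1) ^ (T.filter (fun t => ρ t < ρ s)).card

lemma sg_mul_self (ρ : σ → ℕ) (s : σ) (T : Finset σ) : sg ρ s T * sg ρ s T = 1 := by
  unfold sg
  rw [← pow_add, ← two_mul, pow_mul]
  simp

lemma sg_insert (ρ : σ → ℕ) (s t : σ) (T : Finset σ) (ht : t ∉ T) :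
    sg ρ s (insert t T) = if ρ t < ρ s then - sg ρ s T else sg ρ s T := by
  unfold sg
  rw [Finset.filter_insert]
  split_ifs with h
  · rw [Finset.card_insert_of_notMem (by simp [ht]), pow_succ]
    ring
  · rfl

lemma sg_anticomm (ρ : σ → ℕ) (hρ : Function.Injective ρ) (s t : σ) (T : Finset σ)
    (hs : s ∉ T) (ht : t ∉ T) (hst : s ≠ t) :
    sg ρ s (insert t T) * sg ρ t (insert s T) = - (sg ρ s T * sg ρ t T) := by
  rw [sg_insert ρ s t T ht, sg_insert ρ t s T hs]
  have hne : ρ s ≠ ρ t := fun h => hst (hρ h)
  split_ifs <;> first | omega | ring

lemma sg_anticomm' (ρ : σ → ℕ) (hρ : Function.Injective ρ) (s t : σ) (T : Finset σ)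
    (hs : s ∉ T) (ht : t ∉ T) (hst : s ≠ t) :
    sg ρ s T * sg ρ t (insert s T) = - (sg ρ t T * sg ρ s (insert t T)) := by
  rw [sg_insert ρ s t T ht, sg_insert ρ t s T hs]
  have hne : ρ s ≠ ρ t := fun h => hst (hρ h)
  split_ifs <;> first | omega | ring

end Signs

section Exact

variable {σ τ : Type} [DecidableEq σ] [Fintype τ] [DecidableEq τ] {K : Type u} [Field K]

/-- divide by `X t` the monomials for which this is possible and the quotient satisfies `p` -/
noncomputable def dvd' (t : τ) (p : (τ →₀ ℕ) → Prop) (q : MvPolynomial τ K) :
    MvPolynomial τ K := by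
  classical
  exact ∑ m ∈ q.support.filter (fun m => m t ≠ 0 ∧ p (m - Finsupp.single t 1)),
    monomial (m - Finsupp.single t 1) (coeff m q)

lemma coeff_dvd' (t : τ) (p : (τ →₀ ℕ) → Prop) (q : MvPolynomial τ K) (β : τ →₀ ℕ)
    [Decidable (p β)] :
    coeff β (dvd' t p q) = if p β then coeff (β + Finsupp.single t 1) q else 0 := by
  classical
  unfold dvd'
  rw [coeff_sum]
  simp only [coeff_monomial]
  have hkey : ∀ m : τ →₀ ℕ, m t ≠ 0 → (m - Finsupp.single t 1 = β ↔
      m = β + Finsupp.single t 1) := by
    intro m hm
    constructor
    · intro h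
      rw [← h]
      ext i
      by_cases hi : i = t
      · subst hi; simp; omega
      · simp [Finsupp.single_apply, Ne.symm hi]
    · intro h
      rw [h]; ext i; simp
  split_ifs with hp
  · by_cases hq : coeff (β + Finsupp.single t 1) q = 0
    · rw [hq]
      apply Finset.sum_eq_zero
      intro m hm
      rw [Finset.mem_filter] at hm
      split_ifs with h
      · rw [(hkey m hm.2.1).1 h, hq]
      · rfl
    · rw [Finset.sum_eq_single (β + Finsupp.single t 1)]
      · have : β + Finsupp.single t 1 - Finsupp.single t 1 = β := by ext i; simp
        rw [if_pos this]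
      · intro m hm hne
        rw [Finset.mem_filter] at hm
        rw [if_neg]
        intro h
        exact hne ((hkey m hm.2.1).1 h)
      · intro h
        exfalso
        apply h
        rw [Finset.mem_filter, mem_support_iff]
        refine ⟨hq, by simp, ?_⟩
        have : β + Finsupp.single t 1 - Finsupp.single t 1 = β := by ext i; simp
        rw [this]; exact hp
  · apply Finset.sum_eq_zero
    intro m hm
    rw [Finset.mem_filter] at hm
    rw [if_neg]
    intro h
    apply hp
    rw [← h]; exact hm.2.2

/-- a choice of an element of the support -/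
noncomputable def pk (γ : τ →₀ ℕ) : Option τ := by
  classical
  exact if h : γ.support.Nonempty then some h.choose else none

lemma pk_spec {γ : τ →₀ ℕ} {t : τ} (h : pk γ = some t) : γ t ≠ 0 := by
  classical
  unfold pk at h
  split_ifs at h with h1
  have := h1.choose_spec
  rw [Option.some.injEq] at h
  rw [h] at this
  simpa using this

lemma pk_none {γ : τ →₀ ℕ} (h : pk γ = none) : γ = 0 := by
  classical
  unfold pk at h
  split_ifs at h with h1
  rw [Finset.not_nonempty_iff_eq_empty, Finsupp.support_eq_empty] at h1
  exact h1

/-- the multidegree of `T` -/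
noncomputable def ms (ι : τ → σ) (T : Finset σ) : τ →₀ ℕ :=
  Finsupp.equivFunOnFinite.symm (fun t => if ι t ∈ T then 1 else 0)

lemma ms_apply (ι : τ → σ) (T : Finset σ) (t : τ) :
    ms ι T t = if ι t ∈ T then 1 else 0 := by
  simp [ms]

lemma ms_insert (ι : τ → σ) (hι : Function.Injective ι) (T : Finset σ) (t : τ) (ht : ι t ∉ T) :
    ms ι (insert (ι t) T) = ms ι T + Finsupp.single t 1 := by
  ext s
  rw [ms_apply, Finsupp.add_apply, ms_apply, Finsupp.single_apply]
  by_cases h : t = s
  · subst h; simp [ht]
  · have : ι s ≠ ι t := fun hh => h (hι hh).symm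
    simp [this, h]

/-- Exactness of the Koszul complex of a polynomial ring, with further variables acting as zero. -/
theorem koszul_exact (ρ : σ → ℕ) (hρ : Function.Injective ρ) (ι : τ → σ)
    (hι : Function.Injective ι) (c : Finset σ → MvPolynomial τ K)
    (hc : ∀ T, ∑ t ∈ univ.filter (fun t => ι t ∉ T),
      sg ρ (ι t) T • (X t * c (insert (ι t) T)) = 0)
    (h0 : ∀ T, coeff 0 (c T) ≠ 0 → ∃ t, ι t ∈ T) :
    ∃ c' : Finset σ → MvPolynomial τ K,
      (∀ T, ∑ t ∈ univ.filter (fun t => ι t ∉ T),
        sg ρ (ι t) T • (X t * c' (insert (ι t) T)) = c T) ∧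
      (∀ T β, coeff β (c' T) ≠ 0 → ∃ t, ι t ∈ T ∧
        coeff (β + Finsupp.single t 1) (c (T.erase (ι t))) ≠ 0) := by
  classical
  let c' : Finset σ → MvPolynomial τ K := fun T =>
    ∑ t ∈ univ.filter (fun t => ι t ∈ T), sg ρ (ι t) (T.erase (ι t)) •
      dvd' t (fun β => pk (β + ms ι T) = some t) (c (T.erase (ι t)))
  have hc' : ∀ T β, coeff β (c' T) = ∑ t ∈ univ.filter (fun t => ι t ∈ T),
      sg ρ (ι t) (T.erase (ι t)) • (if pk (β + ms ι T) = some t then
        coeff (β + Finsupp.single t 1) (c (T.erase (ι t))) else 0) := by
    intro T β
    simp only [c', coeff_sum, coeff_smul, coeff_dvd']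
  have hcA : ∀ T β t, pk (β + ms ι T) = some t → ι t ∈ T → coeff β (c' T) =
      sg ρ (ι t) (T.erase (ι t)) • coeff (β + Finsupp.single t 1) (c (T.erase (ι t))) := by
    intro T β t h1 h2
    rw [hc', Finset.sum_eq_single t]
    · rw [if_pos h1]
    · intro s _ hs
      rw [if_neg, smul_zero]
      rw [h1]; intro h; exact hs (Option.some.inj h).symm
    · intro h; exact absurd (by simp [h2]) h
  have hcB : ∀ T β, (∀ t, pk (β + ms ι T) = some t → ι t ∉ T) → coeff β (c' T) = 0 := by
    intro T β h
    rw [hc']
    apply Finset.sum_eq_zero
    intro t ht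
    rw [Finset.mem_filter] at ht
    rw [if_neg, smul_zero]
    intro h1
    exact h t h1 ht.2
  refine ⟨c', ?_, ?_⟩
  · intro T
    ext α
    rw [coeff_sum]
    have hterm : ∀ t ∈ univ.filter (fun t => ι t ∉ T),
        coeff α (sg ρ (ι t) T • (X t * c' (insert (ι t) T))) =
        sg ρ (ι t) T • (if α t ≠ 0 then
          coeff (α - Finsupp.single t 1) (c' (insert (ι t) T)) else 0) := by
      intro t _
      rw [coeff_smul, coeff_X_mul']
      congr 1
      simp only [Finsupp.mem_support_iff]
    rw [Finset.sum_congr rfl hterm]
    have hγ : ∀ t, ι t ∉ T → α t ≠ 0 →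
        (α - Finsupp.single t 1) + ms ι (insert (ι t) T) = α + ms ι T := by
      intro t ht hα
      rw [ms_insert ι hι T t ht]
      ext s
      simp only [Finsupp.add_apply, Finsupp.tsub_apply, Finsupp.single_apply]
      by_cases h : t = s
      · subst h; simp only [if_true]; omega
      · simp [h]
    rcases hpk : pk (α + ms ι T) with _ | t0
    · have hz := pk_none hpk
      have hα : α = 0 := by
        ext t
        have := DFunLike.congr_fun hz t
        simp only [Finsupp.add_apply, Finsupp.zero_apply] at this ⊢
        omega
      have hT : ∀ t, ι t ∉ T := by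
        intro t ht
        have := DFunLike.congr_fun hz t
        simp only [Finsupp.add_apply, Finsupp.zero_apply, ms_apply, if_pos ht] at this
        omega
      rw [Finset.sum_eq_zero]
      · by_contra hne
        rw [hα] at hne
        obtain ⟨t, ht⟩ := h0 T (Ne.symm hne)
        exact hT t ht
      · intro t _
        rw [if_neg, smul_zero]
        rw [hα]; simp
    · have ht0 := pk_spec hpk
      by_cases hT0 : ι t0 ∈ T
      · -- second case
        set T0 := T.erase (ι t0) with hT0def
        have hTins : insert (ι t0) T0 = T := Finset.insert_erase hT0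
        have hnot : ι t0 ∉ T0 := Finset.notMem_erase _ _
        have hcyc := congrArg (coeff (α + Finsupp.single t0 1)) (hc T0)
        rw [coeff_sum, coeff_zero] at hcyc
        have hterm2 : ∀ t ∈ univ.filter (fun t => ι t ∉ T0),
            coeff (α + Finsupp.single t0 1) (sg ρ (ι t) T0 • (X t * c (insert (ι t) T0))) =
            sg ρ (ι t) T0 • (if (α + Finsupp.single t0 1 : τ →₀ ℕ) t ≠ 0 then
              coeff (α + Finsupp.single t0 1 - Finsupp.single t 1) (c (insert (ι t) T0))
              else 0) := by
          intro t _
          rw [coeff_smul, coeff_X_mul']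
          congr 1
          simp only [Finsupp.mem_support_iff]
        rw [Finset.sum_congr rfl hterm2] at hcyc
        have hsplit : univ.filter (fun t => ι t ∉ T0) =
            insert t0 (univ.filter (fun t => ι t ∉ T)) := by
          ext t
          simp only [Finset.mem_filter, Finset.mem_univ, true_and, Finset.mem_insert]
          constructor
          · intro h
            by_cases hh : t = t0
            · left; exact hh
            · right
              intro h2
              apply h
              rw [hT0def, Finset.mem_erase]
              exact ⟨fun h3 => hh (hι h3), h2⟩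
          · rintro (h | h)
            · rw [h]; exact hnot
            · intro h2
              exact h (Finset.mem_of_mem_erase h2)
        rw [hsplit, Finset.sum_insert (by simp [hT0])] at hcyc
        have h1 : (α + Finsupp.single t0 1 : τ →₀ ℕ) t0 ≠ 0 := by simp
        rw [if_pos h1, hTins] at hcyc
        have h2 : α + Finsupp.single t0 1 - Finsupp.single t0 1 = α := by ext i; simp
        rw [h2] at hcyc
        have hterm3 : ∀ t ∈ univ.filter (fun t => ι t ∉ T),
            sg ρ (ι t) T • (if α t ≠ 0 then
              coeff (α - Finsupp.single t 1) (c' (insert (ι t) T)) else 0) =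
            (- sg ρ (ι t0) T0) • (sg ρ (ι t) T0 • (if (α + Finsupp.single t0 1 : τ →₀ ℕ) t ≠ 0 then
              coeff (α + Finsupp.single t0 1 - Finsupp.single t 1) (c (insert (ι t) T0))
              else 0)) := by
          intro t ht
          rw [Finset.mem_filter] at ht
          have htT := ht.2
          have htne : t ≠ t0 := fun h => htT (h ▸ hT0)
          have htne' : ι t ≠ ι t0 := fun h => htne (hι h)
          have hval : (α + Finsupp.single t0 1 : τ →₀ ℕ) t = α t := by
            simp [Finsupp.single_apply, Ne.symm htne]
          rw [hval]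
          by_cases hα : α t = 0
          · simp [hα]
          · rw [if_pos hα, if_pos hα]
            have hpk' : pk ((α - Finsupp.single t 1) + ms ι (insert (ι t) T)) = some t0 := by
              rw [hγ t htT hα]; exact hpk
            rw [hcA _ _ t0 hpk' (Finset.mem_insert_of_mem hT0)]
            have herase : (insert (ι t) T).erase (ι t0) = insert (ι t) T0 := by
              rw [Finset.erase_insert_of_ne htne', hT0def]
            rw [herase]
            have hmon : α - Finsupp.single t 1 + Finsupp.single t0 1 =
                α + Finsupp.single t0 1 - Finsupp.single t 1 := by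
              ext i
              simp only [Finsupp.add_apply, Finsupp.tsub_apply, Finsupp.single_apply]
              by_cases hi : t = i
              · subst hi; simp only [if_true]; omega
              · simp [hi]
            rw [hmon, smul_smul, smul_smul]
            congr 1
            have htT0 : ι t ∉ T0 := fun h => htT (Finset.mem_of_mem_erase h)
            have := sg_anticomm ρ hρ (ι t) (ι t0) T0 htT0 hnot htne'
            rw [hTins] at this
            rw [this]; ring
        rw [Finset.sum_congr rfl hterm3, ← Finset.smul_sum]
        have h3 := eq_neg_of_add_eq_zero_right hcyc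
        rw [h3, smul_neg, neg_smul, neg_neg, smul_smul, sg_mul_self, one_smul]
      · -- first case
        have hα0 : α t0 ≠ 0 := by
          have := ht0
          simp only [Finsupp.add_apply, ms_apply, if_neg hT0, add_zero] at this
          exact this
        rw [Finset.sum_eq_single t0]
        · rw [if_pos hα0]
          have hpk' : pk ((α - Finsupp.single t0 1) + ms ι (insert (ι t0) T)) = some t0 := by
            rw [hγ t0 hT0 hα0]; exact hpk
          rw [hcA _ _ t0 hpk' (Finset.mem_insert_self _ _), Finset.erase_insert hT0]
          have h2 : α - Finsupp.single t0 1 + Finsupp.single t0 1 = α := by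
            ext i
            simp only [Finsupp.add_apply, Finsupp.tsub_apply, Finsupp.single_apply]
            by_cases hi : t0 = i
            · subst hi; simp only [if_true]; omega
            · simp [hi]
          rw [h2, smul_smul, sg_mul_self, one_smul]
        · intro t ht hne
          rw [Finset.mem_filter] at ht
          by_cases hα : α t = 0
          · simp [hα]
          · rw [if_pos hα, hcB, smul_zero]
            intro t1 h1
            rw [hγ t ht.2 hα, hpk] at h1
            rw [← Option.some.inj h1]
            intro h2
            rcases Finset.mem_insert.1 h2 with h3 | h3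
            · exact hne (hι h3).symm
            · exact hT0 h3
        · intro h
          exact absurd (by simp [hT0]) h
  · intro T β h
    by_contra hcon
    push Not at hcon
    apply h
    rw [hc']
    apply Finset.sum_eq_zero
    intro t ht
    rw [Finset.mem_filter] at ht
    split_ifs
    · rw [hcon t ht.2, smul_zero]
    · rw [smul_zero]

end Exact

end Pool.Agent.H42
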