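import Pool.Agent.H42.OIDefs
import Pool.Agent.H42.Koszul

/-!
Gradings with projections, homogeneous components with integer index, free graded modules.
-/

namespace Pool.Agent.H42

open MvPolynomial Finset

universe u

section HomogZ

variable {σ : Type} {K : Type u} [Field K]

lemma isHomogZ_iff_coeff (p : MvPolynomial σ K) (z : ℤ) :
    IsHomogZ p z ↔ ∀ β : σ →₀ ℕ, coeff β p ≠ 0 → (β.degree : ℤ) = z := by
  constructor
  · rintro (rfl | ⟨d, rfl, hp⟩) β hβ
    · simp at hβ
    · by_contra h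
      exact hβ (hp.coeff_eq_zero (by exact_mod_cast h))
  · intro h
    by_cases hp : p = 0
    · left; exact hp
    · right
      obtain ⟨β, hβ⟩ := MvPolynomial.ne_zero_iff.1 hp
      refine ⟨β.degree, h β hβ, ?_⟩
      intro γ hγ
      have h1 := h γ hγ
      have h2 := h β hβ
      have h3 : (Finsupp.weight (1 : σ → ℕ)) γ = γ.degree := by
        rw [Finsupp.degree_eq_weight_one]; rfl
      rw [h3]
      omega

lemma IsHomogZ.zero (z : ℤ) : IsHomogZ (0 : MvPolynomial σ K) z := Or.inl rfl

lemma IsHomogZ.add {p q : MvPolynomial σ K} {z : ℤ} (hp : IsHomogZ p z) (hq : IsHomogZ q z) :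
    IsHomogZ (p + q) z := by
  rw [isHomogZ_iff_coeff] at *
  intro β hβ
  rw [coeff_add] at hβ
  by_cases h : coeff β p = 0
  · rw [h, zero_add] at hβ; exact hq β hβ
  · exact hp β h

lemma IsHomogZ.neg {p : MvPolynomial σ K} {z : ℤ} (hp : IsHomogZ p z) :
    IsHomogZ (-p) z := by
  rw [isHomogZ_iff_coeff] at *
  intro β hβ
  rw [coeff_neg, neg_ne_zero] at hβ
  exact hp β hβ

lemma IsHomogZ.mul {p q : MvPolynomial σ K} {z w : ℤ} (hp : IsHomogZ p z) (hq : IsHomogZ q w) :
    IsHomogZ (p * q) (z + w) := by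
  rcases hp with rfl | ⟨d, rfl, hp⟩
  · rw [zero_mul]; exact IsHomogZ.zero _
  · rcases hq with rfl | ⟨e, rfl, hq⟩
    · rw [mul_zero]; exact IsHomogZ.zero _
    · right
      exact ⟨d + e, by push_cast; ring, hp.mul hq⟩

lemma isHomogZ_of_nat {p : MvPolynomial σ K} {d : ℕ} (hp : p.IsHomogeneous d) :
    IsHomogZ p (d : ℤ) := Or.inr ⟨d, rfl, hp⟩

lemma IsHomogZ.eq_zero_of_neg {p : MvPolynomial σ K} {z : ℤ} (hp : IsHomogZ p z) (hz : z < 0) :
    p = 0 := by
  rcases hp with rfl | ⟨d, rfl, _⟩
  · rfl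
  · omega

/-- the homogeneous component with integer index -/
noncomputable def hcz (z : ℤ) : MvPolynomial σ K →+ MvPolynomial σ K :=
  if 0 ≤ z then (homogeneousComponent z.toNat).toAddMonoidHom else 0

lemma coeff_hcz (z : ℤ) (p : MvPolynomial σ K) (β : σ →₀ ℕ) :
    coeff β (hcz z p) = if (β.degree : ℤ) = z then coeff β p else 0 := by
  unfold hcz
  split_ifs with h1 h2 h2
  · simp only [LinearMap.toAddMonoidHom_coe]
    rw [coeff_homogeneousComponent, if_pos (by omega)]
  · simp only [LinearMap.toAddMonoidHom_coe]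
    rw [coeff_homogeneousComponent, if_neg (by omega)]
  · omega
  · simp

lemma hcz_isHomogZ (z : ℤ) (p : MvPolynomial σ K) : IsHomogZ (hcz z p) z := by
  rw [isHomogZ_iff_coeff]
  intro β hβ
  rw [coeff_hcz] at hβ
  by_contra h
  rw [if_neg h] at hβ
  exact hβ rfl

lemma hcz_self {z : ℤ} {p : MvPolynomial σ K} (hp : IsHomogZ p z) : hcz z p = p := by
  rw [isHomogZ_iff_coeff] at hp
  ext β
  rw [coeff_hcz]
  split_ifs with h
  · rfl
  · by_contra h1
    exact h (hp β (Ne.symm h1))

lemma hcz_ne {z w : ℤ} {p : MvPolynomial σ K} (hp : IsHomogZ p w) (h : w ≠ z) :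
    hcz z p = 0 := by
  rw [isHomogZ_iff_coeff] at hp
  ext β
  rw [coeff_hcz, coeff_zero]
  split_ifs with h1
  · by_contra h2
    exact h ((hp β h2).symm.trans h1)
  · rfl

lemma sum_hcz (p : MvPolynomial σ K) (a : ℤ) (s : Finset ℤ)
    (hs : ∀ β : σ →₀ ℕ, coeff β p ≠ 0 → a + β.degree ∈ s) :
    ∑ e ∈ s, hcz (e - a) p = p := by
  ext β
  rw [coeff_sum]
  simp only [coeff_hcz]
  by_cases h : coeff β p = 0
  · simp [h]
  · rw [Finset.sum_eq_single (a + β.degree)]
    · rw [if_pos (by ring)]
    · intro e _ he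
      rw [if_neg]
      intro h2
      apply he
      omega
    · intro h1
      exact absurd (hs β h) h1

end HomogZ

section Data

variable {σ : Type} {K : Type u} [Field K]

/-- A grading together with its projections. -/
structure GrData (σ : Type) (K : Type u) [Field K] (G : Type u) [AddCommGroup G]
    [Module (MvPolynomial σ K) G] where
  gr : ℤ → AddSubgroup G
  pr : ℤ → G →+ G
  pr_mem : ∀ e x, pr e x ∈ gr e
  pr_self : ∀ e x, x ∈ gr e → pr e x = x
  pr_ne : ∀ e e' x, x ∈ gr e' → e' ≠ e → pr e x = 0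
  sum_pr : ∀ x, ∃ s : Finset ℤ, ∑ e ∈ s, pr e x = x
  smul_mem : ∀ (d : ℤ) (e : ℤ) (p : MvPolynomial σ K) (x : G),
    IsHomogZ p d → x ∈ gr e → p • x ∈ gr (d + e)

/-- the projections of a graded module -/
noncomputable def GrMod.data (N : GrMod σ K) : GrData σ K N.carrier := by
  classical
  letI dec := N.internal.chooseDecomposition
  exact
  { gr := N.gr
    pr := fun e =>
      { toFun := fun x => ((DirectSum.decompose N.gr x) e : N.carrier)
        map_zero' := by simp
        map_add' := by intro x y; simp [DirectSum.decompose_add] }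
    pr_mem := fun e x => ((DirectSum.decompose N.gr x) e).2
    pr_self := by
      intro e x hx
      exact DirectSum.decompose_of_mem_same N.gr hx
    pr_ne := by
      intro e e' x hx hne
      exact DirectSum.decompose_of_mem_ne N.gr hx hne
    sum_pr := by
      intro x
      refine ⟨(DirectSum.decompose N.gr x).support, ?_⟩
      exact DirectSum.sum_support_decompose N.gr x
    smul_mem := by
      intro d e p x hp hx
      rcases hp with rfl | ⟨d', rfl, hp⟩
      · rw [zero_smul]; exact AddSubgroup.zero_mem _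
      · exact N.smul_mem d' e p x hp hx }

lemma GrMod.data_gr (N : GrMod σ K) : N.data.gr = N.gr := rfl

/-- the grading of a free module with basis elements of degrees `deg b` -/
def fgr {r : ℕ} (deg : Fin r → ℤ) (e : ℤ) : AddSubgroup (Fin r → MvPolynomial σ K) where
  carrier := {f | ∀ b, IsHomogZ (f b) (e - deg b)}
  zero_mem' := fun _ => IsHomogZ.zero _
  add_mem' := fun hf hg b => (hf b).add (hg b)
  neg_mem' := fun hf b => (hf b).neg

lemma mem_fgr {r : ℕ} (deg : Fin r → ℤ) (e : ℤ) (f : Fin r → MvPolynomial σ K) :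
    f ∈ fgr deg e ↔ ∀ b, IsHomogZ (f b) (e - deg b) := Iff.rfl

/-- the free graded module with its projections -/
noncomputable def fdata (σ : Type) (K : Type u) [Field K] {r : ℕ} (deg : Fin r → ℤ) :
    GrData σ K (Fin r → MvPolynomial σ K) where
  gr := fgr deg
  pr := fun e =>
    { toFun := fun f b => hcz (e - deg b) (f b)
      map_zero' := by ext1 b; simp
      map_add' := by intro f g; ext1 b; simp }
  pr_mem := fun e f b => hcz_isHomogZ _ _
  pr_self := by
    intro e f hf
    ext1 b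
    exact hcz_self (hf b)
  pr_ne := by
    intro e e' f hf hne
    ext1 b
    exact hcz_ne (hf b) (by intro h; exact hne (by linarith))
  sum_pr := by
    classical
    intro f
    refine ⟨univ.biUnion (fun b => (f b).support.image (fun β => deg b + (β.degree : ℤ))), ?_⟩
    ext1 b
    rw [Finset.sum_apply]
    apply sum_hcz
    intro β hβ
    rw [Finset.mem_biUnion]
    refine ⟨b, Finset.mem_univ _, ?_⟩
    rw [Finset.mem_image]
    exact ⟨β, mem_support_iff.2 hβ, rfl⟩
  smul_mem := by
    intro d e p f hp hf b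
    have := hp.mul (hf b)
    rw [Pi.smul_apply, smul_eq_mul]
    have h2 : d + e - deg b = d + (e - deg b) := by ring
    rw [h2]; exact this

end Data

section Maps

variable {σ : Type} {K : Type u} [Field K]
variable {G : Type u} [AddCommGroup G] [Module (MvPolynomial σ K) G]

lemma fun_eq_sum_single {r : ℕ} (f : Fin r → MvPolynomial σ K) :
    f = ∑ b, f b • (Pi.single b (1 : MvPolynomial σ K) : Fin r → MvPolynomial σ K) := by
  ext1 b
  rw [Finset.sum_apply, Finset.sum_eq_single b]
  · simp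
  · intro b' _ hb'
    simp [Pi.single_apply, Ne.symm hb']
  · intro h; exact absurd (Finset.mem_univ _) h

/-- homogeneous maps from free modules preserve degrees -/
lemma map_mem_gr (D : GrData σ K G) {r : ℕ} (deg : Fin r → ℤ)
    (φ : (Fin r → MvPolynomial σ K) →ₗ[MvPolynomial σ K] G)
    (hφ : ∀ b, φ (Pi.single b 1) ∈ D.gr (deg b)) (e : ℤ) (f : Fin r → MvPolynomial σ K)
    (hf : f ∈ fgr deg e) : φ f ∈ D.gr e := by
  rw [fun_eq_sum_single f, map_sum]
  apply AddSubgroup.sum_mem
  intro b _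
  rw [map_smul]
  have := D.smul_mem (e - deg b) (deg b) (f b) _ (hf b) (hφ b)
  rwa [sub_add_cancel] at this

/-- homogeneous lifting -/
lemma exists_homog_lift (D : GrData σ K G) {r : ℕ} (deg : Fin r → ℤ)
    (φ : (Fin r → MvPolynomial σ K) →ₗ[MvPolynomial σ K] G)
    (hφ : ∀ b, φ (Pi.single b 1) ∈ D.gr (deg b)) (e : ℤ) (y : G) (hy : y ∈ D.gr e)
    (hy2 : y ∈ LinearMap.range φ) : ∃ f ∈ fgr deg e, φ f = y := by
  classical
  obtain ⟨f, rfl⟩ := hy2
  obtain ⟨s, hs⟩ := (fdata σ K deg).sum_pr f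
  refine ⟨(fdata σ K deg).pr e f, (fdata σ K deg).pr_mem e f, ?_⟩
  have h1 : D.pr e (φ f) = φ f := D.pr_self e _ hy
  have hcomp : ∀ e', φ ((fdata σ K deg).pr e' f) ∈ D.gr e' := fun e' =>
    map_mem_gr D deg φ hφ e' _ ((fdata σ K deg).pr_mem e' f)
  have h2 : D.pr e (φ f) = ∑ e' ∈ s, D.pr e (φ ((fdata σ K deg).pr e' f)) := by
    conv_lhs => rw [← hs]
    rw [map_sum, map_sum]
  have h3 : ∀ e' ∈ s, e' ≠ e → D.pr e (φ ((fdata σ K deg).pr e' f)) = 0 :=
    fun e' _ hne => D.pr_ne e e' _ (hcomp e') hne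
  by_cases hes : e ∈ s
  · rw [Finset.sum_eq_single_of_mem e hes h3, D.pr_self e _ (hcomp e)] at h2
    rw [← h2, h1]
  · rw [Finset.sum_eq_zero (fun e' he' => h3 e' he' (fun h => hes (h ▸ he')))] at h2
    have h4 : (fdata σ K deg).pr e f = 0 := by
      conv_lhs => rw [← hs]
      rw [map_sum]
      apply Finset.sum_eq_zero
      intro e' he'
      exact (fdata σ K deg).pr_ne e e' _ ((fdata σ K deg).pr_mem e' f)
        (fun h => hes (h ▸ he'))
    rw [h4, map_zero, ← h1, h2]

end Maps

end Pool.Agent.H42
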