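import Mathlib

/-!
The heat evolution of a polynomial in three real variables.
-/

namespace Pool.Agent.H42.Heat

open MvPolynomial

/-- The Laplacian of a polynomial in three variables. -/
noncomputable def laplacian (f : MvPolynomial (Fin 3) ℝ) : MvPolynomial (Fin 3) ℝ :=
  ∑ i, pderiv i (pderiv i f)

/-- The heat evolution `∑ t^k / k! Δ^k f` of a polynomial `f` in three variables; the sum runs over
`k ≤ deg f`, the terms with `2 k > deg f` vanish. -/
noncomputable def heat (f : MvPolynomial (Fin 3) ℝ) (t : ℝ) : MvPolynomial (Fin 3) ℝ :=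
  ∑ k ∈ Finset.range (f.totalDegree + 1), C (t ^ k / (k.factorial : ℝ)) * laplacian^[k] f

lemma laplacian_add (f g : MvPolynomial (Fin 3) ℝ) :
    laplacian (f + g) = laplacian f + laplacian g := by
  simp [laplacian, Finset.sum_add_distrib]

lemma laplacian_zero : laplacian 0 = 0 := by simp [laplacian]

lemma laplacian_C_mul (a : ℝ) (f : MvPolynomial (Fin 3) ℝ) :
    laplacian (C a * f) = C a * laplacian f := by
  simp [laplacian, pderiv_C_mul, Finset.mul_sum]

lemma coeff_laplacian_eq_zero {m : ℕ} {f : MvPolynomial (Fin 3) ℝ}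
    (h : ∀ d : Fin 3 →₀ ℕ, m ≤ d.degree → coeff d f = 0) (d : Fin 3 →₀ ℕ)
    (hd : m ≤ d.degree + 2) : coeff d (laplacian f) = 0 := by
  unfold laplacian
  rw [coeff_sum]
  apply Finset.sum_eq_zero
  intro i _
  rw [coeff_pderiv, coeff_pderiv, h]
  · simp
  · rw [map_add, map_add, Finsupp.degree_single]
    omega

lemma coeff_iterate_eq_zero {m : ℕ} {f : MvPolynomial (Fin 3) ℝ}
    (h : ∀ d : Fin 3 →₀ ℕ, m ≤ d.degree → coeff d f = 0) (k : ℕ) (d : Fin 3 →₀ ℕ)
    (hd : m ≤ d.degree + 2 * k) : coeff d (laplacian^[k] f) = 0 := by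
  induction k generalizing m f with
  | zero => exact h d (by simpa using hd)
  | succ k ih =>
    rw [Function.iterate_succ_apply]
    apply ih (m := m - 2) (f := laplacian f)
    · intro d hd'
      exact coeff_laplacian_eq_zero h d (by omega)
    · omega

lemma iterate_eq_zero {f : MvPolynomial (Fin 3) ℝ} {k : ℕ} (h : f.totalDegree < 2 * k) :
    laplacian^[k] f = 0 := by
  ext d
  rw [coeff_zero]
  apply coeff_iterate_eq_zero (m := f.totalDegree + 1) _ k d (by omega)
  intro d hd
  apply coeff_eq_zero_of_totalDegree_lt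
  have : ∑ i ∈ d.support, d i = d.degree := rfl
  omega

/-- the heat evolution of a polynomial of degree at most four -/
noncomputable def heat4 (t : ℝ) (f : MvPolynomial (Fin 3) ℝ) : MvPolynomial (Fin 3) ℝ :=
  f + C t * laplacian f + C (t ^ 2 / 2) * laplacian (laplacian f)

lemma heat_eq_heat4 {f : MvPolynomial (Fin 3) ℝ} (hf : f.totalDegree ≤ 4) (t : ℝ) :
    heat f t = heat4 t f := by
  have h5 : heat f t = ∑ k ∈ Finset.range 5, C (t ^ k / (k.factorial : ℝ)) * laplacian^[k] f := by
    unfold heat
    apply Finset.sum_subset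
    · intro k hk
      rw [Finset.mem_range] at *
      omega
    · intro k _ hk
      rw [Finset.mem_range, not_lt] at hk
      rw [iterate_eq_zero (by omega), mul_zero]
  rw [h5, Finset.sum_range_succ, Finset.sum_range_succ, Finset.sum_range_succ,
    Finset.sum_range_succ, Finset.sum_range_one, iterate_eq_zero (f := f) (k := 3) (by omega),
    iterate_eq_zero (f := f) (k := 4) (by omega)]
  simp [heat4, Nat.factorial]

lemma heat4_add (t : ℝ) (f g : MvPolynomial (Fin 3) ℝ) :
    heat4 t (f + g) = heat4 t f + heat4 t g := by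
  simp only [heat4, laplacian_add]; ring

lemma heat4_zero (t : ℝ) : heat4 t 0 = 0 := by simp [heat4, laplacian_zero]

lemma heat4_C_mul (t a : ℝ) (f : MvPolynomial (Fin 3) ℝ) :
    heat4 t (C a * f) = C a * heat4 t f := by
  simp only [heat4, laplacian_C_mul]; ring

end Pool.Agent.H42.Heat
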