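import Mathlib

/-!
Graded OI-modules and FI-modules over the polynomial algebra `P_n = K[x_{i,j} : i < c, j < n]`,
minimal graded free resolutions over a polynomial ring, graded Betti numbers and
Castelnuovo-Mumford regularity.
-/

namespace Pool.Agent.H42

open MvPolynomial

universe u

/-- A `ℤ`-graded module over the standard graded polynomial ring `MvPolynomial σ K`. -/
structure GrMod (σ : Type) (K : Type u) [Field K] where
  /-- the underlying set -/
  carrier : Type u
  [instAddCommGroup : AddCommGroup carrier]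
  [instModule : Module (MvPolynomial σ K) carrier]
  /-- the homogeneous component of degree `e` -/
  gr : ℤ → AddSubgroup carrier
  /-- the module is the direct sum of its homogeneous components -/
  internal : DirectSum.IsInternal gr
  /-- a form of degree `d` maps the component of degree `e` to the one of degree `d + e` -/
  smul_mem : ∀ (d : ℕ) (e : ℤ) (p : MvPolynomial σ K) (x : carrier),
    p.IsHomogeneous d → x ∈ gr e → p • x ∈ gr ((d : ℤ) + e)

attribute [instance] GrMod.instAddCommGroup GrMod.instModule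

/-- `p` is homogeneous of degree `z`, for an integer `z` (only `0` is, if `z < 0`). -/
def IsHomogZ {σ : Type} {K : Type u} [Field K] (p : MvPolynomial σ K) (z : ℤ) : Prop :=
  p = 0 ∨ ∃ d : ℕ, (d : ℤ) = z ∧ p.IsHomogeneous d

section Free

variable (σ : Type) (K : Type u) [Field K]

/-- The free module of rank `r`. -/
abbrev Free (r : ℕ) : Type u := Fin r → MvPolynomial σ K

/-- Linear maps between free modules. -/
abbrev FreeHom (r s : ℕ) : Type u := Free σ K r →ₗ[MvPolynomial σ K] Free σ K s

/-- Linear maps from a free module to the graded module `N`. -/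
abbrev FreeTo (N : GrMod σ K) (r : ℕ) : Type u := Free σ K r →ₗ[MvPolynomial σ K] N.carrier

/-- `φ` is homogeneous of degree zero, if the basis elements have degrees `a i` and `b j`. -/
def FreeHomGraded {r s : ℕ} (φ : FreeHom σ K r s) (a : Fin r → ℤ) (b : Fin s → ℤ) : Prop :=
  ∀ i j, IsHomogZ (φ (Pi.single i 1) j) (a i - b j)

/-- The entries of the matrix of `φ` have no constant term. -/
def FreeHomMinimal {r s : ℕ} (φ : FreeHom σ K r s) : Prop :=
  ∀ i j, constantCoeff (φ (Pi.single i 1) j) = 0

/-- `φ : F → N` is homogeneous of degree zero, if the basis elements have degrees `a i`. -/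
def FreeToGraded (N : GrMod σ K) {r : ℕ} (φ : FreeTo σ K N r) (a : Fin r → ℤ) : Prop :=
  ∀ i, φ (Pi.single i 1) ∈ N.gr (a i)

/-- Exactness of `F → G → H` in the middle. -/
def FreeExact {r s t : ℕ} (ψ : FreeHom σ K r s) (φ : FreeHom σ K s t) : Prop :=
  LinearMap.ker φ = LinearMap.range ψ

/-- Exactness of `F → G → N → 0`. -/
def FreeToExact (N : GrMod σ K) {r s : ℕ} (ψ : FreeHom σ K r s) (φ : FreeTo σ K N s) : Prop :=
  Function.Surjective φ ∧ LinearMap.ker φ = LinearMap.range ψ

end Free

/-- A minimal graded free resolution `⋯ → F_1 → F_0 → N → 0` of the graded module `N` by free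
modules of finite rank: `F_i` has a basis of `rank i` homogeneous elements, the `b`-th one of
degree `deg i b`. -/
structure MinRes {σ : Type} {K : Type u} [Field K] (N : GrMod σ K) where
  /-- the rank of `F_i` -/
  rank : ℕ → ℕ
  /-- the degrees of the basis elements of `F_i` -/
  deg : (i : ℕ) → Fin (rank i) → ℤ
  /-- the differential `F_{i+1} → F_i` -/
  d : (i : ℕ) → FreeHom σ K (rank (i + 1)) (rank i)
  /-- the augmentation `F_0 → N` -/
  aug : FreeTo σ K N (rank 0)
  d_graded : ∀ i : ℕ, FreeHomGraded σ K (d i) (deg (i + 1)) (deg i)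
  aug_graded : FreeToGraded σ K N aug (deg 0)
  exact_zero : FreeToExact σ K N (d 0) aug
  exact_succ : ∀ i : ℕ, FreeExact σ K (d (i + 1)) (d i)
  minimal : ∀ i : ℕ, FreeHomMinimal σ K (d i)

/-- The graded Betti number `β_{i,j}` read off from a minimal graded free resolution: the number
of basis elements of degree `j` of the `i`-th free module. -/
def MinRes.betti {σ : Type} {K : Type u} [Field K] {N : GrMod σ K} (F : MinRes N) (i : ℕ)
    (j : ℤ) : ℕ :=
  Fintype.card {b : Fin (F.rank i) // F.deg i b = j}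

/-- `N` has Castelnuovo-Mumford regularity `r`: it has a minimal graded free resolution, and for
each such resolution `r` is the maximum of the numbers `j - i` with `β_{i,j} ≠ 0`. -/
def HasRegularity {σ : Type} {K : Type u} [Field K] (N : GrMod σ K) (r : ℤ) : Prop :=
  Nonempty (MinRes N) ∧
    ∀ F : MinRes N, IsGreatest {s : ℤ | ∃ (i : ℕ) (j : ℤ), F.betti i j ≠ 0 ∧ s = j - i} r

/-- The algebra map `P(ε) : P_m → P_n`, `x_{i,j} ↦ x_{i,ε(j)}`, applied to `p`. -/
noncomputable def polyMap {K : Type u} [Field K] {c m n : ℕ} (ε : Fin m → Fin n)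
    (p : MvPolynomial (Fin c × Fin m) K) : MvPolynomial (Fin c × Fin n) K :=
  rename (fun v => (v.1, ε v.2)) p

/-- Additive maps between graded modules. -/
abbrev GrHom {σ τ : Type} {K : Type u} [Field K] (M : GrMod σ K) (N : GrMod τ K) : Type u :=
  M.carrier →+ N.carrier

/-- `f` preserves degrees. -/
def GrHom.DegreePreserving {σ τ : Type} {K : Type u} [Field K] {M : GrMod σ K} {N : GrMod τ K}
    (f : GrHom M N) : Prop :=
  ∀ (e : ℤ) (x : M.carrier), x ∈ M.gr e → f x ∈ N.gr e

/-- `f(p q) = P(ε)(p) f(q)` for `p ∈ P_m` and `q ∈ M_m`. -/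
def GrHom.SemilinearOver {K : Type u} [Field K] {c m n : ℕ} {M : GrMod (Fin c × Fin m) K}
    {N : GrMod (Fin c × Fin n) K} (f : GrHom M N) (ε : Fin m → Fin n) : Prop :=
  ∀ (p : MvPolynomial (Fin c × Fin m) K) (q : M.carrier), f (p • q) = polyMap ε p • f q

/-- The morphisms `[m] → [n]` of the category OI: strictly increasing maps. -/
abbrev OIHom (m n : ℕ) : Type := Fin m ↪o Fin n

/-- The identity morphism of OI. -/
def OIHom.ident (n : ℕ) : OIHom n n := RelEmbedding.refl _

/-- The composite `δ ∘ ε` in OI. -/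
def OIHom.compose {l m n : ℕ} (δ : OIHom m n) (ε : OIHom l m) : OIHom l n :=
  RelEmbedding.trans ε δ

/-- A graded OI-module over `P = (X^{OI,1})^{⊗ c}`, where `P_n = K[x_{i,j} : i < c, j < n]`. -/
structure OIModule (K : Type u) [Field K] (c : ℕ) where
  /-- the graded `P_n`-module `M_n` -/
  comp : (n : ℕ) → GrMod (Fin c × Fin n) K
  /-- the map `M(ε) : M_m → M_n` of a strictly increasing map `ε : [m] → [n]` -/
  map : {m n : ℕ} → OIHom m n → GrHom (comp m) (comp n)
  map_ident : ∀ (n : ℕ) (x : (comp n).carrier), map (OIHom.ident n) x = x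
  map_compose : ∀ {l m n : ℕ} (δ : OIHom m n) (ε : OIHom l m) (x : (comp l).carrier),
    map (OIHom.compose δ ε) x = map δ (map ε x)
  semilinear : ∀ {m n : ℕ} (ε : OIHom m n), (map ε).SemilinearOver ε
  degreePreserving : ∀ {m n : ℕ} (ε : OIHom m n), (map ε).DegreePreserving

/-- The elements `M(ε)(q_k)` of `M_n` obtained from elements `q_k ∈ M_{w_k}`. -/
def OIModule.images {K : Type u} [Field K] {c : ℕ} (M : OIModule K c) {r : ℕ} (w : Fin r → ℕ)
    (q : (k : Fin r) → (M.comp (w k)).carrier) (n : ℕ) : Set (M.comp n).carrier :=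
  {x | ∃ (k : Fin r) (ε : OIHom (w k) n), x = M.map ε (q k)}

/-- The OI-module is finitely generated: there are finitely many homogeneous elements
`q_k ∈ M_{w_k}` such that each `M_n` is generated by the elements `M(ε)(q_k)`. -/
def OIModule.FinitelyGenerated {K : Type u} [Field K] {c : ℕ} (M : OIModule K c) : Prop :=
  ∃ (r : ℕ) (w : Fin r → ℕ) (e : Fin r → ℤ) (q : (k : Fin r) → (M.comp (w k)).carrier),
    (∀ k, q k ∈ (M.comp (w k)).gr (e k)) ∧
    ∀ n : ℕ, Submodule.span (MvPolynomial (Fin c × Fin n) K) (M.images w q n) = ⊤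

/-- The morphisms `[m] → [n]` of the category FI: injective maps. -/
abbrev FIHom (m n : ℕ) : Type := Fin m ↪ Fin n

/-- A graded FI-module over `P = (X^{FI,1})^{⊗ c}`, where `P_n = K[x_{i,j} : i < c, j < n]`. -/
structure FIModule (K : Type u) [Field K] (c : ℕ) where
  /-- the graded `P_n`-module `M_n` -/
  comp : (n : ℕ) → GrMod (Fin c × Fin n) K
  /-- the map `M(ε) : M_m → M_n` of an injective map `ε : [m] → [n]` -/
  map : {m n : ℕ} → FIHom m n → GrHom (comp m) (comp n)
  map_ident : ∀ (n : ℕ) (x : (comp n).carrier), map (Function.Embedding.refl (Fin n)) x = x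
  map_compose : ∀ {l m n : ℕ} (δ : FIHom m n) (ε : FIHom l m) (x : (comp l).carrier),
    map (Function.Embedding.trans ε δ) x = map δ (map ε x)
  semilinear : ∀ {m n : ℕ} (ε : FIHom m n), (map ε).SemilinearOver ε
  degreePreserving : ∀ {m n : ℕ} (ε : FIHom m n), (map ε).DegreePreserving

/-- The elements `M(ε)(q_k)` of `M_n` obtained from elements `q_k ∈ M_{w_k}`. -/
def FIModule.images {K : Type u} [Field K] {c : ℕ} (M : FIModule K c) {r : ℕ} (w : Fin r → ℕ)
    (q : (k : Fin r) → (M.comp (w k)).carrier) (n : ℕ) : Set (M.comp n).carrier :=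
  {x | ∃ (k : Fin r) (ε : FIHom (w k) n), x = M.map ε (q k)}

/-- The FI-module is finitely generated: there are finitely many homogeneous elements
`q_k ∈ M_{w_k}` such that each `M_n` is generated by the elements `M(ε)(q_k)`. -/
def FIModule.FinitelyGenerated {K : Type u} [Field K] {c : ℕ} (M : FIModule K c) : Prop :=
  ∃ (r : ℕ) (w : Fin r → ℕ) (e : Fin r → ℤ) (q : (k : Fin r) → (M.comp (w k)).carrier),
    (∀ k, q k ∈ (M.comp (w k)).gr (e k)) ∧
    ∀ n : ℕ, Submodule.span (MvPolynomial (Fin c × Fin n) K) (M.images w q n) = ⊤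

end Pool.Agent.H42
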