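import Pool.Agent.H42.Graded

/-!
Koszul chains with values in graded modules, dimension shifting along resolutions.
-/

namespace Pool.Agent.H42

open MvPolynomial Finset

universe u

section Chains

variable {σ : Type} [Fintype σ] [DecidableEq σ] (K : Type u) [Field K]
variable {G : Type u} [AddCommGroup G] [Module (MvPolynomial σ K) G]

/-- the Koszul differential -/
noncomputable def bd (ρ : σ → ℕ) (c : Finset σ → G) (T : Finset σ) : G :=
  ∑ s ∈ univ.filter (fun s => s ∉ T), sg ρ s T • ((X s : MvPolynomial σ K) • c (insert s T))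

lemma bd_bd (ρ : σ → ℕ) (hρ : Function.Injective ρ) (c : Finset σ → G) (T : Finset σ) :
    bd K ρ (bd K ρ c) T = 0 := by
  unfold bd
  simp only [Finset.smul_sum]
  rw [Finset.sum_sigma']
  have key : ∀ s t : σ, s ∉ T → t ∉ insert s T →
      sg ρ s T • (X s : MvPolynomial σ K) • sg ρ t (insert s T) • (X t : MvPolynomial σ K) •
        c (insert t (insert s T)) +
      sg ρ t T • (X t : MvPolynomial σ K) • sg ρ s (insert t T) • (X s : MvPolynomial σ K) •
        c (insert s (insert t T)) = 0 := by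
    intro s t hs ht
    have hts : t ≠ s := fun h => ht (h ▸ Finset.mem_insert_self _ _)
    have htT : t ∉ T := fun h => ht (Finset.mem_insert_of_mem h)
    have h1 : ∀ (a b : ℤ) (s t : σ) (g : G),
        a • (X s : MvPolynomial σ K) • b • (X t : MvPolynomial σ K) • g =
        (a * b) • ((X s * X t : MvPolynomial σ K)) • g := by
      intro a b s t g
      rw [smul_comm (X s : MvPolynomial σ K) b, smul_smul, smul_smul]
    rw [h1, h1, Finset.insert_comm t s T, mul_comm (X t : MvPolynomial σ K) (X s), ← add_smul,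
      sg_anticomm' ρ hρ s t T hs htT (Ne.symm hts), neg_add_cancel, zero_smul]
  refine Finset.sum_involution (fun a _ => (⟨a.2, a.1⟩ : (_ : σ) × σ)) ?_ ?_ ?_ ?_
  · rintro ⟨s, t⟩ hst
    simp only [Finset.mem_sigma, Finset.mem_filter, Finset.mem_univ, true_and] at hst
    exact key s t hst.1 hst.2
  · rintro ⟨s, t⟩ hst _ h
    simp only [Finset.mem_sigma, Finset.mem_filter, Finset.mem_univ, true_and] at hst
    have : t = s := by
      have := congrArg Sigma.fst h
      exact this
    exact hst.2 (this ▸ Finset.mem_insert_self _ _)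
  · rintro ⟨s, t⟩ hst
    simp only [Finset.mem_sigma, Finset.mem_filter, Finset.mem_univ, true_and] at hst ⊢
    refine ⟨fun h => hst.2 (Finset.mem_insert_of_mem h), fun h => ?_⟩
    rcases Finset.mem_insert.1 h with h1 | h1
    · exact hst.2 (h1 ▸ Finset.mem_insert_self _ _)
    · exact hst.1 h1
  · rintro ⟨s, t⟩ _
    rfl

lemma bd_map (ρ : σ → ℕ) {G' : Type u} [AddCommGroup G'] [Module (MvPolynomial σ K) G']
    (φ : G →ₗ[MvPolynomial σ K] G') (c : Finset σ → G) (T : Finset σ) :
    bd K ρ (fun S => φ (c S)) T = φ (bd K ρ c T) := by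
  unfold bd
  rw [map_sum]
  apply Finset.sum_congr rfl
  intro s _
  rw [map_zsmul, map_smul]

lemma bd_sub (ρ : σ → ℕ) (c c' : Finset σ → G) (T : Finset σ) :
    bd K ρ (fun S => c S - c' S) T = bd K ρ c T - bd K ρ c' T := by
  unfold bd
  rw [← Finset.sum_sub_distrib]
  apply Finset.sum_congr rfl
  intro s _
  rw [smul_sub, smul_sub]

lemma bd_supp (ρ : σ → ℕ) (c : Finset σ → G) (i : ℕ) (h : ∀ T, T.card ≠ i + 1 → c T = 0) :
    ∀ T, T.card ≠ i → bd K ρ c T = 0 := by
  intro T hT
  unfold bd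
  apply Finset.sum_eq_zero
  intro s hs
  rw [Finset.mem_filter] at hs
  rw [h, smul_zero, smul_zero]
  rw [Finset.card_insert_of_notMem hs.2]
  omega

lemma bd_gr (ρ : σ → ℕ) (D : GrData σ K G) (c : Finset σ → G) (j : ℤ)
    (h : ∀ T, c T ∈ D.gr (j - T.card)) : ∀ T, bd K ρ c T ∈ D.gr (j - T.card) := by
  intro T
  unfold bd
  apply AddSubgroup.sum_mem
  intro s hs
  rw [Finset.mem_filter] at hs
  apply AddSubgroup.zsmul_mem
  have h1 := D.smul_mem 1 _ (X s) _ (isHomogZ_of_nat (isHomogeneous_X K s)) (h (insert s T))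
  rw [Finset.card_insert_of_notMem hs.2] at h1
  push_cast at h1
  have h2 : (1 : ℤ) + (j - (↑T.card + 1)) = j - T.card := by ring
  rwa [h2] at h1

/-- exactness of the Koszul strand of internal degree `j` at homological degree `i`, for a
submodule `S` -/
def Ex (ρ : σ → ℕ) (D : GrData σ K G) (S : Submodule (MvPolynomial σ K) G) (i : ℕ) (j : ℤ) :
    Prop :=
  ∀ c : Finset σ → G, (∀ T, c T ∈ S) → (∀ T, c T ∈ D.gr (j - T.card)) →
    (∀ T, T.card ≠ i → c T = 0) → (∀ T, bd K ρ c T = 0) →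
    ∃ c' : Finset σ → G, (∀ T, c' T ∈ S) ∧ (∀ T, c' T ∈ D.gr (j - T.card)) ∧
      (∀ T, T.card ≠ i + 1 → c' T = 0) ∧ ∀ T, bd K ρ c' T = c T

lemma free_exact (ρ : σ → ℕ) (hρ : Function.Injective ρ) {r : ℕ} (deg : Fin r → ℤ) (i : ℕ)
    (j : ℤ) (c : Finset σ → (Fin r → MvPolynomial σ K))
    (hgr : ∀ T, c T ∈ fgr deg (j - T.card)) (hsupp : ∀ T, T.card ≠ i → c T = 0)
    (hcyc : ∀ T, bd K ρ c T = 0) (h0 : ∀ b, coeff 0 (c ∅ b) = 0) :
    ∃ c' : Finset σ → (Fin r → MvPolynomial σ K), (∀ T, c' T ∈ fgr deg (j - T.card)) ∧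
      (∀ T, T.card ≠ i + 1 → c' T = 0) ∧ ∀ T, bd K ρ c' T = c T := by
  have hb : ∀ b : Fin r, ∃ c' : Finset σ → MvPolynomial σ K,
      (∀ T, ∑ t ∈ univ.filter (fun t => (id t : σ) ∉ T),
        sg ρ (id t) T • (X t * c' (insert (id t) T)) = c T b) ∧
      (∀ T β, coeff β (c' T) ≠ 0 → ∃ t, id t ∈ T ∧
        coeff (β + Finsupp.single t 1) (c (T.erase (id t)) b) ≠ 0) := by
    intro b
    apply koszul_exact ρ hρ id Function.injective_id (fun T => c T b)
    · intro T
      have := congrFun (hcyc T) b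
      unfold bd at this
      rw [Finset.sum_apply] at this
      simpa using this
    · intro T hT
      by_cases hTe : T = ∅
      · rw [hTe] at hT; exact absurd (h0 b) hT
      · obtain ⟨t, ht⟩ := Finset.nonempty_iff_ne_empty.2 hTe
        exact ⟨t, ht⟩
  choose c' hc1 hc2 using hb
  refine ⟨fun T b => c' b T, ?_, ?_, ?_⟩
  · intro T b
    rw [isHomogZ_iff_coeff]
    intro β hβ
    obtain ⟨t, ht, hne⟩ := hc2 b T β hβ
    have h1 := hgr (T.erase (id t)) b
    rw [isHomogZ_iff_coeff] at h1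
    have h2 := h1 _ hne
    have h3 : (T.erase (id t)).card + 1 = T.card := Finset.card_erase_add_one ht
    rw [map_add, Finsupp.degree_single] at h2
    push_cast at h2
    have h4 : ((T.erase (id t)).card : ℤ) + 1 = T.card := by exact_mod_cast h3
    linarith
  · intro T hT
    ext1 b
    by_contra h
    obtain ⟨β, hβ⟩ := MvPolynomial.ne_zero_iff.1 h
    obtain ⟨t, ht, hne⟩ := hc2 b T β hβ
    have h3 : (T.erase (id t)).card + 1 = T.card := Finset.card_erase_add_one ht
    rw [hsupp _ (by omega)] at hne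
    simp at hne
  · intro T
    ext1 b
    rw [← hc1 b T]
    unfold bd
    rw [Finset.sum_apply]
    simp

variable {K}

/-- dimension shifting, first half -/
lemma shift_one (ρ : σ → ℕ) (hρ : Function.Injective ρ) (D : GrData σ K G) {r : ℕ}
    (deg : Fin r → ℤ) (φ : (Fin r → MvPolynomial σ K) →ₗ[MvPolynomial σ K] G)
    (hφ : ∀ b, φ (Pi.single b 1) ∈ D.gr (deg b)) (i : ℕ) (j : ℤ)
    (h : Ex K ρ (fdata σ K deg) (LinearMap.ker φ) i j) :
    Ex K ρ D (LinearMap.range φ) (i + 1) j := by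
  classical
  intro z hzS hzgr hzsupp hzcyc
  -- lift the chain
  have hlift : ∀ T, ∃ f ∈ fgr deg (j - T.card), φ f = z T ∧ (T.card ≠ i + 1 → f = 0) := by
    intro T
    by_cases hT : T.card = i + 1
    · obtain ⟨f, hf, hf2⟩ := exists_homog_lift D deg φ hφ _ (z T) (hzgr T) (hzS T)
      exact ⟨f, hf, hf2, fun h => absurd hT h⟩
    · exact ⟨0, AddSubgroup.zero_mem _, by rw [map_zero, hzsupp T hT], fun _ => rfl⟩
  choose zt hzt1 hzt2 hzt3 using hlift
  obtain ⟨w, hw1, hw2, hw3, hw4⟩ := h (bd K ρ zt) (by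
      intro T
      rw [LinearMap.mem_ker, ← bd_map]
      simp only [hzt2]
      exact hzcyc T) (bd_gr K ρ (fdata σ K deg) zt j hzt1) (bd_supp K ρ zt i hzt3)
      (bd_bd K ρ hρ zt)
  obtain ⟨u, hu1, hu2, hu3⟩ := free_exact K ρ hρ deg (i + 1) j (fun T => zt T - w T) (by
      intro T; exact AddSubgroup.sub_mem _ (hzt1 T) (hw2 T)) (by
      intro T hT; rw [hzt3 T hT, hw3 T hT, sub_zero]) (by
      intro T; rw [bd_sub, hw4, sub_self]) (by
      intro b
      rw [hzt3 ∅ (by simp), hw3 ∅ (by simp)]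
      simp)
  refine ⟨fun T => φ (u T), fun T => LinearMap.mem_range_self _ _, ?_, ?_, ?_⟩
  · intro T; exact map_mem_gr D deg φ hφ _ _ (hu1 T)
  · intro T hT; simp only [hu2 T hT, map_zero]
  · intro T
    rw [bd_map, hu3, map_sub, hzt2, LinearMap.mem_ker.1 (hw1 T), sub_zero]

/-- dimension shifting, second half -/
lemma shift_two (ρ : σ → ℕ) (hρ : Function.Injective ρ) (D : GrData σ K G) {r : ℕ}
    (deg : Fin r → ℤ) (φ : (Fin r → MvPolynomial σ K) →ₗ[MvPolynomial σ K] G)
    (hφ : ∀ b, φ (Pi.single b 1) ∈ D.gr (deg b))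
    (hmin : ∀ f ∈ LinearMap.ker φ, ∀ b, constantCoeff (f b) = 0) (i : ℕ) (j : ℤ)
    (h : Ex K ρ D (LinearMap.range φ) (i + 1) j) :
    Ex K ρ (fdata σ K deg) (LinearMap.ker φ) i j := by
  classical
  intro y hyS hygr hysupp hycyc
  obtain ⟨z, hz1, hz2, hz3⟩ := free_exact K ρ hρ deg i j y hygr hysupp hycyc (by
    intro b
    exact hmin _ (hyS ∅) b)
  obtain ⟨u, hu1, hu2, hu3, hu4⟩ := h (fun T => φ (z T)) (fun T => LinearMap.mem_range_self _ _)
    (by intro T; exact map_mem_gr D deg φ hφ _ _ (hz1 T))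
    (by intro T hT; simp only [hz2 T hT, map_zero])
    (by intro T; rw [bd_map, hz3]; exact hyS T)
  have hlift : ∀ T, ∃ f ∈ fgr deg (j - T.card), φ f = u T ∧ (T.card ≠ i + 1 + 1 → f = 0) := by
    intro T
    by_cases hT : T.card = i + 1 + 1
    · obtain ⟨f, hf, hf2⟩ := exists_homog_lift D deg φ hφ _ (u T) (hu2 T) (hu1 T)
      exact ⟨f, hf, hf2, fun h => absurd hT h⟩
    · exact ⟨0, AddSubgroup.zero_mem _, by rw [map_zero, hu3 T hT], fun _ => rfl⟩
  choose ut hut1 hut2 hut3 using hlift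
  refine ⟨fun T => z T - bd K ρ ut T, ?_, ?_, ?_, ?_⟩
  · intro T
    rw [LinearMap.mem_ker, map_sub, ← bd_map]
    simp only [hut2]
    rw [hu4, sub_self]
  · intro T
    exact AddSubgroup.sub_mem _ (hz1 T) (bd_gr K ρ (fdata σ K deg) ut j hut1 T)
  · intro T hT
    beta_reduce
    rw [hz2 T hT, bd_supp K ρ ut (i + 1) hut3 T hT, sub_zero]
  · intro T
    rw [bd_sub, bd_bd K ρ hρ, sub_zero, hz3]

/-- homological degree zero -/
lemma ex_zero_iff (ρ : σ → ℕ) (hρ : Function.Injective ρ) (D : GrData σ K G) {r : ℕ}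
    (deg : Fin r → ℤ) (φ : (Fin r → MvPolynomial σ K) →ₗ[MvPolynomial σ K] G)
    (hφ : ∀ b, φ (Pi.single b 1) ∈ D.gr (deg b))
    (hmin : ∀ f ∈ LinearMap.ker φ, ∀ b, constantCoeff (f b) = 0) (j : ℤ) :
    Ex K ρ D (LinearMap.range φ) 0 j ↔ ∀ b, deg b ≠ j := by
  classical
  constructor
  · intro h b hb
    -- the generator is a boundary
    obtain ⟨c', hc1, hc2, hc3, hc4⟩ := h (fun T => if T = ∅ then φ (Pi.single b 1) else 0)
      (by
        intro T
        split_ifs
        · exact LinearMap.mem_range_self _ _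
        · exact Submodule.zero_mem _)
      (by
        intro T
        split_ifs with hT
        · rw [hT]; simpa [hb] using hφ b
        · exact AddSubgroup.zero_mem _)
      (by
        intro T hT
        rw [if_neg]
        rintro rfl
        simp at hT)
      (by
        intro T
        unfold bd
        apply Finset.sum_eq_zero
        intro s hs
        beta_reduce
        rw [if_neg (Finset.insert_ne_empty s T), smul_zero, smul_zero])
    have h1 := hc4 ∅
    rw [if_pos rfl] at h1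
    have hch : ∀ T, ∃ f, φ f = c' T := fun T => by
      obtain ⟨f, hf⟩ := hc1 T
      exact ⟨f, hf⟩
    choose u hu using hch
    have h2 : (Pi.single b 1 : Fin r → MvPolynomial σ K) - bd K ρ u ∅ ∈ LinearMap.ker φ := by
      rw [LinearMap.mem_ker, map_sub, ← bd_map]
      simp only [hu]
      rw [h1, sub_self]
    have h3 := hmin _ h2 b
    rw [Pi.sub_apply, Pi.single_eq_same, map_sub, map_one] at h3
    have h4 : constantCoeff (bd K ρ u ∅ b) = 0 := by
      unfold bd
      rw [Finset.sum_apply, map_sum]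
      apply Finset.sum_eq_zero
      intro s _
      simp
    rw [h4, sub_zero] at h3
    exact one_ne_zero h3
  · intro h y hyS hygr hysupp hycyc
    obtain ⟨f, hf1, hf2⟩ := exists_homog_lift D deg φ hφ _ (y ∅) (hygr ∅) (hyS ∅)
    simp only [Finset.card_empty, Nat.cast_zero, sub_zero] at hf1
    obtain ⟨z, hz1, hz2, hz3⟩ := free_exact K ρ hρ deg 0 j (fun T => if T = ∅ then f else 0)
      (by
        intro T
        split_ifs with hT
        · rw [hT]; simpa using hf1
        · exact AddSubgroup.zero_mem _)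
      (by
        intro T hT
        rw [if_neg]
        rintro rfl
        simp at hT)
      (by
        intro T
        unfold bd
        apply Finset.sum_eq_zero
        intro s hs
        beta_reduce
        rw [if_neg (Finset.insert_ne_empty s T), smul_zero, smul_zero])
      (by
        intro b
        rw [if_pos rfl]
        by_contra hne
        have h1 := hf1 b
        rw [isHomogZ_iff_coeff] at h1
        have h2 := h1 0 hne
        simp only [map_zero, Nat.cast_zero] at h2
        exact h b (by linarith))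
    refine ⟨fun T => φ (z T), fun T => LinearMap.mem_range_self _ _, ?_, ?_, ?_⟩
    · intro T; exact map_mem_gr D deg φ hφ _ _ (hz1 T)
    · intro T hT; simp only [hz2 T hT, map_zero]
    · intro T
      rw [bd_map, hz3]
      split_ifs with hT
      · rw [hT, hf2]
      · rw [map_zero, hysupp]
        intro h2
        exact hT (Finset.card_eq_zero.1 h2)

end Chains

section Resolution

variable {σ : Type} [Fintype σ] [DecidableEq σ] {K : Type u} [Field K]

lemma MinRes.ker_min {N : GrMod σ K} (F : MinRes N) :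
    (∀ f ∈ LinearMap.ker F.aug, ∀ b, constantCoeff (f b) = 0) ∧
    (∀ i, ∀ f ∈ LinearMap.ker (F.d i), ∀ b, constantCoeff (f b) = 0) := by
  have key : ∀ i, ∀ f ∈ LinearMap.range (F.d i), ∀ b, constantCoeff (f b) = 0 := by
    rintro i _ ⟨g, rfl⟩ b
    rw [fun_eq_sum_single g, map_sum, Finset.sum_apply, map_sum]
    apply Finset.sum_eq_zero
    intro b' _
    rw [map_smul, Pi.smul_apply, smul_eq_mul, map_mul, F.minimal i b' b, mul_zero]
  exact ⟨by rw [F.exact_zero.2]; exact key 0, fun i => by rw [F.exact_succ i]; exact key (i + 1)⟩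

lemma MinRes.d_mem {N : GrMod σ K} (F : MinRes N) (i : ℕ) (b : Fin (F.rank (i + 1))) :
    F.d i (Pi.single b 1) ∈ (fdata σ K (F.deg i)).gr (F.deg (i + 1) b) :=
  fun b' => F.d_graded i b b'

lemma MinRes.ex_range (ρ : σ → ℕ) (hρ : Function.Injective ρ) {N : GrMod σ K} (F : MinRes N)
    (j : ℤ) : ∀ (i k : ℕ), Ex K ρ (fdata σ K (F.deg k)) (LinearMap.range (F.d k)) i j ↔
      ∀ b, F.deg (k + 1 + i) b ≠ j := by
  intro i
  induction i with
  | zero =>
    intro k
    exact ex_zero_iff ρ hρ (fdata σ K (F.deg k)) (F.deg (k + 1)) (F.d k) (F.d_mem k)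
      (F.ker_min.2 k) j
  | succ i ih =>
    intro k
    have h1 : Ex K ρ (fdata σ K (F.deg k)) (LinearMap.range (F.d k)) (i + 1) j ↔
        Ex K ρ (fdata σ K (F.deg (k + 1))) (LinearMap.ker (F.d k)) i j :=
      ⟨shift_two ρ hρ _ (F.deg (k + 1)) (F.d k) (F.d_mem k) (F.ker_min.2 k) i j,
        shift_one ρ hρ _ (F.deg (k + 1)) (F.d k) (F.d_mem k) i j⟩
    rw [h1, F.exact_succ k, ih (k + 1)]
    have h2 : k + 1 + 1 + i = k + 1 + (i + 1) := by ring
    rw [h2]

/-- The Koszul homology of `N` detects the graded Betti numbers. -/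
theorem MinRes.ex_iff (ρ : σ → ℕ) (hρ : Function.Injective ρ) {N : GrMod σ K} (F : MinRes N)
    (i : ℕ) (j : ℤ) : Ex K ρ N.data ⊤ i j ↔ F.betti i j = 0 := by
  have hbetti : F.betti i j = 0 ↔ ∀ b, F.deg i b ≠ j := by
    unfold MinRes.betti
    rw [Fintype.card_eq_zero_iff]
    constructor
    · intro h b hb
      exact h.false ⟨b, hb⟩
    · intro h
      exact ⟨fun b => h b.1 b.2⟩
  rw [hbetti]
  have htop : LinearMap.range F.aug = ⊤ := LinearMap.range_eq_top.2 F.exact_zero.1
  have haug : ∀ b, F.aug (Pi.single b 1) ∈ N.data.gr (F.deg 0 b) := F.aug_graded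
  cases i with
  | zero =>
    rw [← htop]
    exact ex_zero_iff ρ hρ N.data (F.deg 0) F.aug haug F.ker_min.1 j
  | succ i =>
    have h1 : Ex K ρ N.data (LinearMap.range F.aug) (i + 1) j ↔
        Ex K ρ (fdata σ K (F.deg 0)) (LinearMap.ker F.aug) i j :=
      ⟨shift_two ρ hρ _ (F.deg 0) F.aug haug F.ker_min.1 i j,
        shift_one ρ hρ _ (F.deg 0) F.aug haug i j⟩
    rw [← htop, h1, F.exact_zero.2, F.ex_range ρ hρ j i 0]
    have h2 : 0 + 1 + i = i + 1 := by ring
    rw [h2]

end Resolution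

end Pool.Agent.H42
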